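import Pool.Agent.Lib.MP_50bb2e_nt.Tow.Grp

/-!
MP_50bb2e_nt, towers: the family of characters supported on an infinite set of odd primes and
trivial at a finite set of primes is an infinite group; ramification of products.
-/

open IsDedekindDomain NumberField

namespace Pool.Agent.Lib.MP_50bb2e_nt.Tow

open Pool.Agent.Lib.MP_50bb2e_nt.PP

variable {F : Type} [Field F] [NumberField F]

theorem fam_closed (P S : Set (Pr F)) : ∀ χ ∈ Fam P S, ∀ ψ ∈ Fam P S, χ * ψ ∈ Fam P S := by
  intro χ hχ ψ hψ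
  refine ⟨?_, ?_⟩
  · intro v hv
    rcases mul_T χ ψ (Finset.mem_coe.1 hv) with h | h
    · exact hχ.1 (Finset.mem_coe.2 h)
    · exact hψ.1 (Finset.mem_coe.2 h)
  · intro v hv
    have h1 := hχ.2 v hv
    have h2 := hψ.2 v hv
    rw [mul_chi χ ψ (by rw [h1]; norm_num) (by rw [h2]; norm_num), h1, h2, mul_one]

theorem finite_mem' {a : 𝓞 F} (ha : a ≠ 0) : {v : Pr F | a ∈ v.asIdeal}.Finite :=
  DivRow.finite_mem ha

theorem fam_infinite (P S : Set (Pr F)) (hodd : ∀ v ∈ P, Odd (nm v)) (hP : P.Infinite)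
    (hS : S.Finite) : (Fam P S).Infinite := by
  classical
  obtain ⟨A, hA0, hA⟩ := sel F hS.toFinset
  let P' : Set (Pr F) := {v | v ∈ P ∧ v ∉ S ∧ ∀ a ∈ A, a ∉ v.asIdeal}
  have hP' : P'.Infinite := by
    have h1 : (P \ (S ∪ ⋃ a ∈ A, {v : Pr F | a ∈ v.asIdeal})).Infinite := by
      refine hP.sdiff (hS.union ?_)
      exact Set.Finite.biUnion A.finite_toSet fun a ha => finite_mem' (hA0 a ha)
    refine h1.mono ?_
    intro v hv
    refine ⟨hv.1, fun h => hv.2 (Or.inl h), fun a ha h => hv.2 (Or.inr ?_)⟩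
    simp only [Set.mem_iUnion]
    exact ⟨a, ha, h⟩
  obtain ⟨K, hK⟩ : ∃ K : Finset (𝓞 F),
      {v | v ∈ P' ∧ A.filter (fun a => qs v a = 1) = K}.Infinite := by
    by_contra h
    push Not at h
    apply hP'
    have h1 : P' ⊆ ⋃ K ∈ A.powerset, {v | v ∈ P' ∧ A.filter (fun a => qs v a = 1) = K} := by
      intro v hv
      simp only [Set.mem_iUnion]
      exact ⟨A.filter (fun a => qs v a = 1), Finset.mem_powerset.2 (Finset.filter_subset _ _),
        hv, rfl⟩
    exact Set.Finite.subset (Set.Finite.biUnion A.powerset.finite_toSet fun K _ => h K) h1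
  obtain ⟨v0, hv0P, hv0K⟩ := hK.nonempty
  have hQ : ({v | v ∈ P' ∧ A.filter (fun a => qs v a = 1) = K} \ {v0}).Infinite :=
    hK.sdiff (Set.finite_singleton _)
  have hex : ∀ w ∈ ({v | v ∈ P' ∧ A.filter (fun a => qs v a = 1) = K} \ {v0} : Set (Pr F)),
      ∃ χ : QChar F, χ.T = {v0, w} ∧ ∀ s ∈ hS.toFinset, χ.chi s.asIdeal = 1 := by
    intro w hw
    have hwP : w ∈ P' := hw.1.1
    have hwK := hw.1.2
    have hne0 : v0 ≠ w := fun h => hw.2 h.symm
    refine ext_proof crt qs_proof F hS.toFinset {v0, w} ?_ ?_ ?_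
    · rw [Finset.disjoint_left]
      intro v hvS hv
      rw [Set.Finite.mem_toFinset] at hvS
      rw [Finset.mem_insert, Finset.mem_singleton] at hv
      rcases hv with rfl | rfl
      · exact hv0P.2.1 hvS
      · exact hwP.2.1 hvS
    · intro v hv
      rw [Finset.mem_insert, Finset.mem_singleton] at hv
      rcases hv with rfl | rfl
      · exact hodd _ hv0P.1
      · exact hodd _ hwP.1
    · intro α b E hα hE hb hcop
      obtain ⟨α', hα', β, γ, hβ, hγ, heq⟩ := hA α b E hα hE hb
      have key : ∀ v ∈ ({v0, w} : Finset (Pr F)), v ∈ P' → qs v α = qs v α' := by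
        intro v hv hvP
        refine (qs_proof F v).2.2.2 α α' β γ ?_ (hvP.2.2 α' hα') hβ hγ heq
        intro h
        exact hcop v hv ((Ideal.span_singleton_le_iff_mem _).2 h)
      rw [Finset.prod_pair hne0, key v0 (by simp) hv0P, key w (by simp) hwP]
      have h6 : qs v0 α' = qs w α' := by
        have h7 : α' ∈ A.filter (fun a => qs v0 a = 1) ↔
            α' ∈ A.filter (fun a => qs w a = 1) := by
          rw [hv0K, hwK]
        simp only [Finset.mem_filter, hα', true_and] at h7
        rcases DivRow.qs_cases v0 α' with h8 | h8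
        · rw [h8, h7.1 h8]
        · rcases DivRow.qs_cases w α' with h9 | h9
          · rw [h9, h7.2 h9]
          · rw [h8, h9]
      rw [h6]
      rcases DivRow.qs_cases w α' with h9 | h9 <;> rw [h9] <;> norm_num
  choose! f hf using hex
  refine (hQ.image (f := f) ?_).mono ?_
  · intro w hw w' hw' h
    have h1 : ({v0, w} : Finset (Pr F)) = {v0, w'} := by
      rw [← (hf w hw).1, ← (hf w' hw').1, h]
    have h2 : w ∈ ({v0, w'} : Finset (Pr F)) := by
      rw [← h1]
      simp
    rw [Finset.mem_insert, Finset.mem_singleton] at h2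
    rcases h2 with h2 | h2
    · exact absurd h2 hw.2
    · exact h2
  · rintro χ ⟨w, hw, rfl⟩
    refine ⟨?_, ?_⟩
    · rw [(hf w hw).1]
      intro v hv
      rw [Finset.mem_coe, Finset.mem_insert, Finset.mem_singleton] at hv
      rcases hv with rfl | rfl
      · exact hv0P.1
      · exact hw.1.1.1
    · intro s hs
      exact (hf w hw).2 s (hS.mem_toFinset.2 hs)

open Classical in
theorem prod_T (e : ℕ → QChar F) (he : Pairwise fun i k => Disjoint (e i).T (e k).T)
    (s : Finset ℕ) : (∏ i ∈ s, e i).T = s.biUnion fun i => (e i).T := by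
  induction s using Finset.induction_on with
  | empty => simp [one_T]
  | insert a s ha ih =>
    rw [Finset.prod_insert ha, mul_T_disj, ih, Finset.biUnion_insert]
    rw [ih, Finset.disjoint_biUnion_right]
    intro i hi
    exact he (fun h => ha (h ▸ hi))

theorem prod_ne_one (e : ℕ → QChar F) (he : Pairwise fun i k => Disjoint (e i).T (e k).T)
    (hne : ∀ i, (e i).T.Nonempty) (s : Finset ℕ) (hs : s.Nonempty) : ∏ i ∈ s, e i ≠ 1 := by
  classical
  intro h
  obtain ⟨i, hi⟩ := hs
  obtain ⟨v, hv⟩ := hne i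
  have h1 := prod_T e he s
  rw [h, one_T] at h1
  have h2 : v ∈ s.biUnion fun i => (e i).T := Finset.mem_biUnion.2 ⟨i, hi, hv⟩
  rw [← h1] at h2
  exact absurd h2 (Finset.notMem_empty v)

end Pool.Agent.Lib.MP_50bb2e_nt.Tow
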