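import Pool.Agent.Lib.MP_50bb2e_nt.Tow.IfaceU
import Pool.Agent.Lib.MP_50bb2e_nt.ND.Locc

/-!
MP_50bb2e_nt, towers: row LOCC with constants which do not depend on the predicate.
-/

open IsDedekindDomain NumberField Filter Topology

namespace Pool.Agent.Lib.MP_50bb2e_nt.Tow

open Pool.Agent.Lib.MP_50bb2e_nt.PP
open Pool.Agent.Lib.MP_50bb2e_nt.ND

open ND.Locc Classical in
theorem locc (hqr : QrStatement) (hcnt : CntStatement) (hdsg : DsgStatement) : LoccU := by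
  intro F _ _ P S j hC ch hch
  set t := 2 * j + 2 with ht
  set U := PC P S with hU
  let Q := Fin t → Fin t → ZMod 2
  let Ω := {x : Fin t → ZMod 2 // x ≠ 0}
  let A : Ω → Q → Prop := fun x M => qf M x.1 = 1
  have hinc : Inc Q Ω A (2 ^ (t ^ 2 - 1)) := hqr t (by omega)
  have hne : Nonempty Ω := ⟨⟨fun _ => 1, fun h => by
    have := congrFun h ⟨0, by omega⟩
    simp at this⟩⟩
  set k := 2 ^ (t ^ 2 - 1) with hk
  have hk1 : 1 ≤ k := Nat.one_le_two_pow
  have hKpos : 0 < Fintype.card Q := Fintype.card_pos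
  obtain ⟨a, u1, ha, hm⟩ := wn_card hC (Fintype.card Q) hKpos
  -- a prime
  obtain ⟨v0⟩ : Nonempty (Pr F) := by
    obtain ⟨u1', h1', hb⟩ := big 1
    have h1 := hm (max u1 u1') (le_max_left _ _)
    have h2 := hb (max u1 u1') (le_max_right _ _)
    have h3 : (0 : ℝ) < ((Wn U (max u1 u1')).ncard / Fintype.card Q : ℕ) := by
      refine lt_of_lt_of_le ?_ h1
      rw [mul_div_assoc]
      exact mul_pos ha (lt_of_lt_of_le one_pos h2)
    have h4 : 0 < (Wn U (max u1 u1')).ncard / Fintype.card Q := by exact_mod_cast h3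
    have h5 : (Wn U (max u1 u1')).ncard ≠ 0 := by
      intro h
      rw [h, Nat.zero_div] at h4
      omega
    obtain ⟨v, -⟩ := Set.nonempty_of_ncard_ne_zero h5
    exact ⟨v⟩
  obtain ⟨e, heW, heI⟩ := exists_e (U := U) v0 Q
  obtain ⟨c, u2, hc, hcnt'⟩ := hcnt Q Ω A k hk1 hne hinc a u1 ha
  refine ⟨k, c, max u2 1, hk1, hc, ?_⟩
  intro Lg hG u0 hu0 χ hχ hLg hχT
  have hu2 : u2 ≤ u0 := le_trans (le_max_left _ _) hu0
  have hu01 : 1 ≤ u0 := le_trans (le_max_right _ _) hu0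
  let Rs : (x : Ω) → ({M : Q // A x M} → ℕ) → ({M : Q // A x M} → ℕ) → Finset (Pr F) :=
    fun x h g => Finset.univ.image (fun M : {M : Q // A x M} => e (h M) M.1 (g M))
  let Gd : (x : Ω) → ({M : Q // A x M} → ℕ) → ({M : Q // A x M} → ℕ) → Prop :=
    fun x h g => ∃ ρ ∈ Fam P S, Lg ρ ∧ (∀ v, v ∈ ρ.T ↔ v ∈ χ.T ∨ v ∈ Rs x h g) ∧
      ρ.cond = χ.cond * ∏ v ∈ Rs x h g, nm v ∧
      ∀ a, ρ.chi a = χ.chi a * ∏ v ∈ Rs x h g, (ch v).chi a
  obtain ⟨x, hx⟩ := hcnt' (fun u => (Wn U u).ncard / Fintype.card Q) hm Gd u0 hu2 (by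
    intro u f hu hf
    have hinj : Function.Injective (fun M => e (u M) M (f M)) := by
      intro M M' h
      exact (heI _ _ _ _ _ _ (hf M) (hf M') h).2.1
    have hp : ∀ M, ch (e (u M) M (f M)) ∈ Fam P S ∧ (ch (e (u M) M (f M))).T = {e (u M) M (f M)} ∧
        e (u M) M (f M) ∉ χ.T := by
      intro M
      obtain ⟨h1, h2, h3⟩ := heW (u M) M (f M) (hf M)
      refine ⟨(hch _ h3).1, (hch _ h3).2, fun hmem => ?_⟩
      have h4 := hχT _ hmem
      have h5 : 2 ^ u0 ≤ 2 ^ (2 * u M) := Nat.pow_le_pow_right (by norm_num) (hu M).1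
      have h6 : 2 ^ (2 * u M) = (2 ^ u M) ^ 2 := by rw [← pow_mul, mul_comm]
      have h7 : (2 ^ u M) ^ 2 < (nm (e (u M) M (f M))) ^ 2 := Nat.pow_lt_pow_left h1 (by norm_num)
      omega
    obtain ⟨x, ρ, hρ, hρL, hρT, hρc, hρchi⟩ := hdsg F P S j Lg hG χ ch hχ hLg
      (fun M => e (u M) M (f M)) hinj hp
    refine ⟨x, ρ, hρ, hρL, ?_, ?_, ?_⟩
    · intro v
      rw [hρT v]
      simp only [Rs, Finset.mem_image, Finset.mem_univ, true_and, Subtype.exists, A]
      constructor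
      · rintro (h | ⟨M, h1, h2⟩)
        · exact Or.inl h
        · exact Or.inr ⟨M, h1, h2.symm⟩
      · rintro (h | ⟨M, h1, h2⟩)
        · exact Or.inl h
        · exact Or.inr ⟨M, h1, h2.symm⟩
    · rw [hρc]
      congr 1
      exact prod_img (fun M => qf M x.1 = 1) (fun M => e (u M) M (f M)) hinj nm
    · intro a
      rw [hρchi a]
      congr 1
      exact prod_img (fun M => qf M x.1 = 1) (fun M => e (u M) M (f M)) hinj (fun v => (ch v).chi a))
  -- the good pairs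
  set Gs : Set (({M : Q // A x M} → ℕ) × ({M : Q // A x M} → ℕ)) :=
    {p | (∀ M, u0 ≤ 2 * p.1 M) ∧ (∑ᶠ M, p.1 M) = k * u0 ∧
      (∀ M, p.2 M < (Wn U (p.1 M)).ncard / Fintype.card Q) ∧ Gd x p.1 p.2} with hGs
  have hGfin : Gs.Finite := by
    apply Set.finite_of_ncard_pos
    have h1 : (0 : ℝ) < c * 2 ^ (k * u0) / u0 := by
      have : (0 : ℝ) < u0 := by exact_mod_cast hu01
      positivity
    exact_mod_cast lt_of_lt_of_le h1 hx
  have hRinj : Set.InjOn (fun p : ({M : Q // A x M} → ℕ) × ({M : Q // A x M} → ℕ) => Rs x p.1 p.2)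
      Gs := by
    rintro ⟨h, g⟩ hp ⟨h', g'⟩ hp' he
    obtain ⟨-, -, hm1, -⟩ := hp
    obtain ⟨-, -, hm2, -⟩ := hp'
    have key : ∀ M, h M = h' M ∧ g M = g' M := by
      intro M
      have h1 : e (h M) M.1 (g M) ∈ Rs x h' g' := by
        have : e (h M) M.1 (g M) ∈ Rs x h g := Finset.mem_image.2 ⟨M, Finset.mem_univ _, rfl⟩
        rwa [show Rs x h g = Rs x h' g' from he] at this
      obtain ⟨M', -, h2⟩ := Finset.mem_image.1 h1
      obtain ⟨h3, h4, h5⟩ := heI _ _ _ _ _ _ (hm2 M') (hm1 M) h2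
      have h6 : M' = M := Subtype.ext h4
      subst h6
      exact ⟨h3.symm, h5.symm⟩
    exact Prod.ext (funext fun M => (key M).1) (funext fun M => (key M).2)
  refine ⟨hGfin.toFinset.image (fun p => Rs x p.1 p.2), ?_, ?_⟩
  · rw [Finset.card_image_of_injOn (by
      intro p hp q hq h
      exact hRinj (by simpa using hp) (by simpa using hq) h), ← Set.ncard_eq_toFinset_card Gs hGfin]
    exact hx
  · intro R hR
    obtain ⟨⟨h, g⟩, hp, rfl⟩ := Finset.mem_image.1 hR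
    obtain ⟨h1, h2, h3, h4⟩ := (Set.Finite.mem_toFinset hGfin).1 hp
    dsimp only at h1 h2 h3 h4 ⊢
    refine ⟨?_, ?_, h4⟩
    · intro v hv
      obtain ⟨M, -, rfl⟩ := Finset.mem_image.1 hv
      obtain ⟨h5, h6, h7⟩ := heW (h M) M.1 (g M) (h3 M)
      refine ⟨h7, ?_⟩
      have h8 : 2 ^ u0 ≤ 2 ^ (2 * h M) := Nat.pow_le_pow_right (by norm_num) (h1 M)
      have h9 : 2 ^ (2 * h M) = (2 ^ h M) ^ 2 := by rw [← pow_mul, mul_comm]
      have h10 : (2 ^ h M) ^ 2 < (nm (e (h M) M.1 (g M))) ^ 2 := Nat.pow_lt_pow_left h5 (by norm_num)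
      omega
    · have h5 : ∏ v ∈ Rs x h g, nm v = ∏ M : {M : Q // A x M}, nm (e (h M) M.1 (g M)) := by
        apply Finset.prod_image
        intro M _ M' _ h
        exact Subtype.ext (heI _ _ _ _ _ _ (h3 M) (h3 M') h).2.1
      rw [h5]
      calc ∏ M : {M : Q // A x M}, nm (e (h M) M.1 (g M))
          ≤ ∏ M : {M : Q // A x M}, 2 ^ (h M + 1) :=
            Finset.prod_le_prod' (fun M _ => (heW (h M) M.1 (g M) (h3 M)).2.1)
        _ = 2 ^ (∑ M : {M : Q // A x M}, (h M + 1)) := Finset.prod_pow_eq_pow_sum _ _ _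
        _ = 2 ^ (k * u0 + k) := by
          congr 1
          rw [Finset.sum_add_distrib, Finset.sum_const, smul_eq_mul, mul_one, ← h2,
            finsum_eq_sum_of_fintype, Finset.card_univ, ← Nat.card_eq_fintype_card, hinc.card x]

end Pool.Agent.Lib.MP_50bb2e_nt.Tow
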