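import Pool.Agent.Lib.MP_50bb2e_nt.Tow.IfaceU

/-!
MP_50bb2e_nt, towers: lower natural density, with constants which do not depend on the predicate.
-/

open IsDedekindDomain NumberField Filter Topology

namespace Pool.Agent.Lib.MP_50bb2e_nt.Tow

open Pool.Agent.Lib.MP_50bb2e_nt.PP
open Pool.Agent.Lib.MP_50bb2e_nt.ND

theorem nd (h1 : MsumU) (h2 : LdU) (h3 : MerStatement) (h4 : UbStatement)
    (h5 : NtStatement) (h6 : SummStatement) : NdU := by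
  classical
  intro F _ _ P S j hodd hS hC
  obtain ⟨c, e, X0, hc, he, he1, hM0⟩ := h1 F P S j hC
  obtain ⟨c', hc', hL0⟩ := h2 F P S j hodd hS
  obtain ⟨C, hC0, hMer⟩ := h3 F e he
  obtain ⟨C2, hC2, hU⟩ := h4 F
  have hfin := (h5 F).1
  refine ⟨c * c' / (C2 * C), max X0 2, by positivity, ?_⟩
  intro Lg hG X hX
  have hM := hM0 Lg hG
  have hL := hL0 Lg hG
  have hX0 : X0 ≤ X := (le_max_left _ _).trans hX
  have hX2 : 2 ≤ X := (le_max_right _ _).trans hX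
  have hX2' : (2 : ℝ) ≤ X := by exact_mod_cast hX2
  have hX1 : (1 : ℝ) ≤ X := by linarith
  have hlog : 0 < Real.log X := Real.log_pos (by linarith)
  have hXl : 0 ≤ (X : ℝ) / Real.log X := by positivity
  have hY1 : (1 : ℝ) ≤ (X : ℝ) ^ e := Real.one_le_rpow hX1 he.le
  have hfY : {v : Pr F | v ∈ P ∧ (nm v : ℝ) ≤ (X : ℝ) ^ e}.Finite :=
    (hfin ((X : ℝ) ^ e)).subset (fun v hv => hv.2)
  have hfX : {v : Pr F | v ∈ P ∧ (nm v : ℝ) ≤ X}.Finite :=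
    (hfin (X : ℝ)).subset (fun v hv => hv.2)
  set AY : Finset (Pr F) := hfY.toFinset with hAY
  set AX : Finset (Pr F) := hfX.toFinset with hAX
  have hmY : ∀ v, v ∈ AY ↔ v ∈ P ∧ (nm v : ℝ) ≤ (X : ℝ) ^ e := by
    intro v; rw [hAY, Set.Finite.mem_toFinset]; rfl
  have hmX : ∀ v, v ∈ AX ↔ v ∈ P ∧ (nm v : ℝ) ≤ X := by
    intro v; rw [hAX, Set.Finite.mem_toFinset]; rfl
  have hsub : AY ⊆ AX := by
    intro v hv
    rw [hmY] at hv
    rw [hmX]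
    refine ⟨hv.1, hv.2.trans ?_⟩
    calc (X : ℝ) ^ e ≤ (X : ℝ) ^ (1 : ℝ) := Real.rpow_le_rpow_of_exponent_le hX1 he1
      _ = X := Real.rpow_one _
  obtain ⟨Φ, hΦ, hΦs⟩ := hL ((X : ℝ) ^ e) hY1 AY (fun v hv => (hmY v).1 hv)
  have hlow := hM X hX0 Φ hΦ
  have hup := hU P X hX2 AX (fun v hv hvX => (hmX v).2 ⟨hv, by exact_mod_cast hvX⟩)
  have hprodY : 0 ≤ ∏ v ∈ AY, (1 + 1 / (nm v : ℝ)) :=
    Finset.prod_nonneg (fun v _ => by positivity)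
  have hprod : ∏ v ∈ AX, (1 + 1 / (nm v : ℝ)) ≤ C * ∏ v ∈ AY, (1 + 1 / (nm v : ℝ)) := by
    rw [← Finset.prod_sdiff hsub]
    apply mul_le_mul_of_nonneg_right _ hprodY
    apply hMer X hX2'
    intro v hv
    rw [Finset.mem_sdiff, hmX, hmY] at hv
    refine ⟨?_, hv.1.2⟩
    by_contra h
    push Not at h
    exact hv.2 ⟨hv.1.1, h⟩
  have hfam : (Set.ncard {χ : QChar F | χ ∈ Fam P S ∧ χ.cond ≤ X} : ℝ) ≤
      Set.ncard {χ : QChar F | (χ.T : Set (Pr F)) ⊆ P ∧ χ.cond ≤ X} := by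
    have := Set.ncard_le_ncard (s := {χ : QChar F | χ ∈ Fam P S ∧ χ.cond ≤ X})
      (t := {χ : QChar F | (χ.T : Set (Pr F)) ⊆ P ∧ χ.cond ≤ X})
      (fun χ hχ => ⟨hχ.1.1, hχ.2⟩) (((h6 F).1 X).subset (fun χ hχ => hχ.2))
    exact_mod_cast this
  have hk : 0 ≤ c * c' / (C2 * C) := by positivity
  calc c * c' / (C2 * C) * Set.ncard {χ : QChar F | χ ∈ Fam P S ∧ χ.cond ≤ X}
      ≤ c * c' / (C2 * C) * (C2 * (X / Real.log X) *
          (C * ∏ v ∈ AY, (1 + 1 / (nm v : ℝ)))) := by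
        apply mul_le_mul_of_nonneg_left _ hk
        refine hfam.trans (hup.trans ?_)
        exact mul_le_mul_of_nonneg_left hprod (by positivity)
    _ = c * (X / Real.log X) * (c' * ∏ v ∈ AY, (1 + 1 / (nm v : ℝ))) := by
        field_simp
    _ ≤ c * (X / Real.log X) * ∑ χ ∈ Φ, 1 / (χ.cond : ℝ) :=
        mul_le_mul_of_nonneg_left hΦs (by positivity)
    _ ≤ _ := hlow
    _ = Set.ncard {χ : QChar F | χ ∈ Fam P S ∧ Lg χ ∧ χ.cond ≤ X} := rfl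

end Pool.Agent.Lib.MP_50bb2e_nt.Tow
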