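import Pool.Agent.Lib.MP_50bb2e_nt.ND.All
import Pool.Agent.Lib.MP_50bb2e_nt.Tow.LoccU
import Pool.Agent.Lib.MP_50bb2e_nt.Tow.MsumU
import Pool.Agent.Lib.MP_50bb2e_nt.Tow.LdU
import Pool.Agent.Lib.MP_50bb2e_nt.Tow.NdU

/-!
MP_50bb2e_nt, towers: lower natural density, with constants which do not depend on the predicate:
assembly.
-/

open IsDedekindDomain NumberField Filter Topology

namespace Pool.Agent.Lib.MP_50bb2e_nt.Tow

open Pool.Agent.Lib.MP_50bb2e_nt.PP
open Pool.Agent.Lib.MP_50bb2e_nt.ND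

theorem loccU : LoccU := locc QrH.qr (Cnt.cnt lat) (dsg qe (chr crt ray'))

theorem msumU : MsumU := msum loccU (summ fin') inj'

theorem ldU : LdU :=
  ld (lda sel qs_proof (ext_proof crt qs_proof)) (ldb mixH prim' fin') (ldc nt fin') (mer nt) nt

theorem ndU : NdU := nd msumU ldU (mer nt) (ub nt fin') nt (summ fin')

end Pool.Agent.Lib.MP_50bb2e_nt.Tow
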