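import Mathlib

/-!
MP_50bb2e_nt, towers: the combinatorial part. In a group of exponent two let every finite subgroup
`V` (of a given infinite subgroup) have at least `|V| / 2^j` good elements. By Hindman's theorem
there is an independent infinite sequence all of whose products are good.
-/

namespace Pool.Agent.Lib.MP_50bb2e_nt.Tow

open Hindman

/-- the elements of `FP a` are products of `a` over finite nonempty sets -/
theorem exists_of_mem_FP {M : Type} [CommMonoid M] {a : Stream' M} {m : M} (h : m ∈ FP a) :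
    ∃ s : Finset ℕ, s.Nonempty ∧ ∏ i ∈ s, a.get i = m := by
  classical
  induction h with
  | head' a => exact ⟨{0}, Finset.singleton_nonempty 0, by simp [Stream'.head]⟩
  | tail' a m _ ih =>
    obtain ⟨s, hs, hm⟩ := ih
    refine ⟨s.image Nat.succ, hs.image _, ?_⟩
    rw [Finset.prod_image (fun x _ y _ h => Nat.succ_injective h), ← hm]
    rfl
  | cons' a m _ ih =>
    obtain ⟨s, hs, hm⟩ := ih
    refine ⟨insert 0 (s.image Nat.succ), Finset.insert_nonempty _ _, ?_⟩
    rw [Finset.prod_insert (by simp), Finset.prod_image (fun x _ y _ h => Nat.succ_injective h),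
      ← hm]
    rfl

section

variable {M : Type} [CommGroup M]

open Classical in
theorem prod_symmDiff' (h2 : ∀ x : M, x * x = 1) (b : ℕ → M) (s t : Finset ℕ) :
    (∏ i ∈ s, b i) * ∏ i ∈ t, b i = ∏ i ∈ symmDiff s t, b i := by
  have e1 : ∏ i ∈ symmDiff s t, b i = (∏ i ∈ s \ t, b i) * ∏ i ∈ t \ s, b i := by
    rw [symmDiff_def, Finset.sup_eq_union, Finset.prod_union]
    rw [Finset.disjoint_left]
    intro x hx hx'
    exact (Finset.mem_sdiff.1 hx).2 (Finset.mem_sdiff.1 hx').1
  have e2 : ∏ i ∈ s, b i = (∏ i ∈ s \ t, b i) * ∏ i ∈ s ∩ t, b i := by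
    rw [← Finset.prod_union, Finset.sdiff_union_inter]
    rw [Finset.disjoint_left]
    intro x hx hx'
    exact (Finset.mem_sdiff.1 hx).2 (Finset.mem_inter.1 hx').2
  have e3 : ∏ i ∈ t, b i = (∏ i ∈ t \ s, b i) * ∏ i ∈ s ∩ t, b i := by
    rw [← Finset.prod_union, Finset.inter_comm, Finset.sdiff_union_inter]
    rw [Finset.disjoint_left]
    intro x hx hx'
    exact (Finset.mem_sdiff.1 hx).2 (Finset.mem_inter.1 hx').1
  rw [e1, e2, e3]
  calc (∏ i ∈ s \ t, b i) * (∏ i ∈ s ∩ t, b i) * ((∏ i ∈ t \ s, b i) * ∏ i ∈ s ∩ t, b i)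
      = (∏ i ∈ s \ t, b i) * (∏ i ∈ t \ s, b i) *
          ((∏ i ∈ s ∩ t, b i) * ∏ i ∈ s ∩ t, b i) := by
        rw [mul_mul_mul_comm]
    _ = _ := by rw [h2, mul_one]

open Classical in
theorem exists_good_seq (h2 : ∀ x : M, x * x = 1) (e : ℕ → M)
    (he : ∀ s : Finset ℕ, s.Nonempty → ∏ i ∈ s, e i ≠ 1) (H : Subgroup M) (heH : ∀ i, e i ∈ H)
    (G : M → Prop) (j : ℕ)
    (hG : ∀ V : Finset M, V.Nonempty → (∀ x ∈ V, x ∈ H) → (∀ x ∈ V, ∀ y ∈ V, x * y ∈ V) →
      V.card ≤ 2 ^ j * (V.filter G).card) :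
    ∃ b : ℕ → M, ∀ s : Finset ℕ, s.Nonempty →
      ∏ i ∈ s, b i ≠ 1 ∧ ∏ i ∈ s, b i ∈ H ∧ G (∏ i ∈ s, b i) := by
  let a : Stream' M := e
  have ha : ∀ m ∈ FP a, m ≠ 1 ∧ m ∈ H := by
    intro m hm
    obtain ⟨s, hs, rfl⟩ := exists_of_mem_FP hm
    exact ⟨he s hs, Subgroup.prod_mem _ fun i _ => heH i⟩
  obtain ⟨c, hc, b, hb⟩ := FP_partition_regular a
    {{m | m ∈ FP a ∧ G m}, {m | m ∈ FP a ∧ ¬ G m}} (Set.toFinite _) (by
      intro m hm
      by_cases h : G m
      · exact ⟨_, Or.inl rfl, hm, h⟩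
      · exact ⟨_, Or.inr rfl, hm, h⟩)
  have hb' : ∀ s : Finset ℕ, s.Nonempty → ∏ i ∈ s, b.get i ∈ c := fun s hs =>
    hb (FP.finsetProd b s hs)
  rcases hc with rfl | hc
  · refine ⟨b.get, fun s hs => ⟨?_, ?_, (hb' s hs).2⟩⟩
    · exact (ha _ (hb' s hs).1).1
    · exact (ha _ (hb' s hs).1).2
  · exfalso
    rw [Set.mem_singleton_iff] at hc
    subst hc
    set f : Finset ℕ → M := fun s => ∏ i ∈ s, b.get i with hf
    set V : Finset M := (Finset.range (j + 1)).powerset.image f with hVdef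
    have hinj : Set.InjOn f ((Finset.range (j + 1)).powerset : Set (Finset ℕ)) := by
      intro s _ t _ hst
      by_contra hne
      have h1 : (symmDiff s t).Nonempty := by
        rw [Finset.nonempty_iff_ne_empty]
        intro h
        exact hne (symmDiff_eq_bot.1 h)
      apply (ha _ (hb' _ h1).1).1
      rw [← prod_symmDiff' h2 b.get s t]
      change f s * f t = 1
      rw [hst, h2]
    have hcard : V.card = 2 ^ (j + 1) := by
      rw [hVdef, Finset.card_image_of_injOn hinj, Finset.card_powerset, Finset.card_range]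
    have hmem : ∀ x ∈ V, x = 1 ∨ x ∈ {m | m ∈ FP a ∧ ¬ G m} := by
      intro x hx
      obtain ⟨s, _, rfl⟩ := Finset.mem_image.1 hx
      rcases s.eq_empty_or_nonempty with rfl | hs
      · left
        simp [hf]
      · right
        exact hb' s hs
    have h3 := hG V ⟨f ∅, Finset.mem_image.2 ⟨∅, by simp, rfl⟩⟩ (by
        intro x hx
        rcases hmem x hx with rfl | h
        · exact H.one_mem
        · exact (ha _ h.1).2) (by
        intro x hx y hy
        obtain ⟨s, hs, rfl⟩ := Finset.mem_image.1 hx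
        obtain ⟨t, ht, rfl⟩ := Finset.mem_image.1 hy
        refine Finset.mem_image.2 ⟨symmDiff s t, ?_, ?_⟩
        · rw [Finset.mem_powerset] at hs ht ⊢
          intro i hi
          rcases Finset.mem_symmDiff.1 hi with h | h
          · exact hs h.1
          · exact ht h.1
        · exact (prod_symmDiff' h2 b.get s t).symm)
    have h4 : (V.filter G).card ≤ 1 := by
      rw [Finset.card_le_one]
      have h5 : ∀ x ∈ V.filter G, x = 1 := by
        intro x hx
        rw [Finset.mem_filter] at hx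
        rcases hmem x hx.1 with h | h
        · exact h
        · exact absurd hx.2 h.2
      intro x hx y hy
      rw [h5 x hx, h5 y hy]
    rw [hcard] at h3
    have h5 : 2 ^ j * (V.filter G).card ≤ 2 ^ j * 1 := Nat.mul_le_mul_left _ h4
    have h6 : 2 ^ (j + 1) ≤ 2 ^ j := by
      calc 2 ^ (j + 1) ≤ 2 ^ j * (V.filter G).card := h3
        _ ≤ 2 ^ j * 1 := h5
        _ = 2 ^ j := mul_one _
    have h7 : 2 ^ j < 2 ^ (j + 1) := Nat.pow_lt_pow_right (by norm_num) (Nat.lt_succ_self j)
    omega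

end

end Pool.Agent.Lib.MP_50bb2e_nt.Tow
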