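import Pool.Agent.Lib.MP_50bb2e_nt.Tow.Twi

/-!
MP_50bb2e_nt, towers: `k`-tuples of characters all whose `2 ^ k` products have non-vanishing
central values; induction on `k`.
-/

open IsDedekindDomain NumberField Filter Topology

namespace Pool.Agent.Lib.MP_50bb2e_nt.Tow

open Pool.Agent.Lib.MP_50bb2e_nt.PP
open Pool.Agent.Lib.MP_50bb2e_nt.ND (CVSet LgCV Good)

section

variable {F : Type} [Field F] [NumberField F]

/-- the product of the entries chosen by `ε` -/
noncomputable def U {k : ℕ} (x : Fin k → QChar F) (ε : Fin k → Bool) : QChar F :=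
  ∏ n, if ε n then x n else 1

theorem U_cons {k : ℕ} (y : QChar F) (x : Fin k → QChar F) (b : Bool) (ε : Fin k → Bool) :
    U (Fin.cons y x : Fin (k + 1) → QChar F) (Fin.cons b ε) = (if b then y else 1) * U x ε := by
  simp [U, Fin.prod_univ_succ]

theorem prod_T' {κ : Type} (s : Finset κ) (x : κ → QChar F) (P : Set (Pr F))
    (h : ∀ i ∈ s, ((x i).T : Set (Pr F)) ⊆ P) : ((∏ i ∈ s, x i).T : Set (Pr F)) ⊆ P := by
  classical
  induction s using Finset.induction_on with
  | empty =>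
    rw [Finset.prod_empty, one_T]
    simp
  | insert i s hi ih =>
    rw [Finset.prod_insert hi]
    intro v hv
    rcases mul_T _ _ (Finset.mem_coe.1 hv) with h1 | h1
    · exact h i (Finset.mem_insert_self _ _) (Finset.mem_coe.2 h1)
    · exact ih (fun i hi => h i (Finset.mem_insert_of_mem hi)) (Finset.mem_coe.2 h1)

theorem U_T {k : ℕ} {P : Set (Pr F)} (x : Fin k → QChar F) (hx : ∀ n, ((x n).T : Set (Pr F)) ⊆ P)
    (ε : Fin k → Bool) : ((U x ε).T : Set (Pr F)) ⊆ P := by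
  apply prod_T'
  intro n _
  by_cases h : ε n = true
  · rw [if_pos h]; exact hx n
  · rw [if_neg h, one_T]; simp

/-- the products form a group -/
theorem U_mul {k : ℕ} (x : Fin k → QChar F) (ε ε' : Fin k → Bool) :
    U x ε * U x ε' = U x (fun n => xor (ε n) (ε' n)) := by
  unfold U
  rw [← Finset.prod_mul_distrib]
  apply Finset.prod_congr rfl
  intro n _
  rcases h : ε n with _ | _ <;> rcases h' : ε' n with _ | _ <;> simp [h, h', mul_self']

theorem U_single {k : ℕ} (x : Fin k → QChar F) (n : Fin k) :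
    U x (fun m => decide (m = n)) = x n := by
  unfold U
  simp

variable {CV : (Ideal (𝓞 F) → ℂ) → ℂ → Prop}
  {ι : Type} [Fintype ι] {c : ι → Ideal (𝓞 F) → ℂ} {w : AbsoluteValue ℂ ℝ} {B : ι → ℝ}
  {P : Set (Pr F)}

/-- all products have central values, whose `w`-values have a product larger than `b` -/
def LgT (CV : (Ideal (𝓞 F) → ℂ) → ℂ → Prop) (c : ι → Ideal (𝓞 F) → ℂ) (w : AbsoluteValue ℂ ℝ)
    {k : ℕ} (b : ℝ) (x : Fin k → QChar F) : Prop :=
  ∃ l : (Fin k → Bool) → ι → ℂ,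
    (∀ ε i, CV (fun a => c i a * (((U x ε).chi a : ℤ) : ℂ)) (l ε i)) ∧ b < ∏ ε, ∏ i, w (l ε i)

/-- the threshold -/
noncomputable def bb (w : AbsoluteValue ℂ ℝ) (B : ι → ℝ) (j k : ℕ) : ℝ :=
  (w 2) ^ (2 ^ k * (j + 1)) * (∏ i, B i) ^ (2 ^ k)

theorem B_nonneg (hS : CVSet CV c w B P) (i : ι) : 0 ≤ B i := by
  classical
  obtain ⟨l, _, hl⟩ := hS.int i ∅ (by simp) _ (isRay_cop ∅)
  exact (w.nonneg _).trans hl

theorem bb_nonneg (hS : CVSet CV c w B P) (j k : ℕ) : 0 ≤ bb w B j k :=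
  mul_nonneg (pow_nonneg (w.nonneg _) _)
    (pow_nonneg (Finset.prod_nonneg fun i _ => B_nonneg hS i) _)

theorem bb_succ (j k : ℕ) : bb w B j (k + 1) = bb w B j k * bb w B j k := by
  unfold bb
  ring

theorem lgT_zero (j : ℕ) (hbase : LgCV CV c w ((w 2) ^ (j + 1) * ∏ i, B i) (trivQ F))
    (x : Fin 0 → QChar F) : LgT CV c w (bb w B j 0) x := by
  obtain ⟨l, hl, hb⟩ := hbase
  refine ⟨fun _ => l, ?_, ?_⟩
  · intro ε i
    have : U x ε = trivQ F := by
      unfold U
      rw [Finset.univ_eq_empty, Finset.prod_empty]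
      rfl
    rw [this]
    exact hl i
  · unfold bb
    simpa using hb

theorem lgT_succ (hS : CVSet CV c w B P) {k : ℕ} {j : ℕ} {x : Fin k → QChar F} {y : QChar F}
    (hx : ∀ n, ((x n).T : Set (Pr F)) ⊆ P) (hy : (y.T : Set (Pr F)) ⊆ P)
    (h : LgT CV c w (bb w B j k) x) (h' : LgCV CV (cU c (U x)) w (bb w B j k) y) :
    LgT CV c w (bb w B j (k + 1)) (Fin.cons y x : Fin (k + 1) → QChar F) := by
  obtain ⟨l, hl, hb⟩ := h
  obtain ⟨l', hl', hb'⟩ := lg_tw hS (U x) (U_T x hx) _ y hy h'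
  refine ⟨fun ε => if ε 0 then l' (Fin.tail ε) else l (Fin.tail ε), ?_, ?_⟩
  · intro ε i
    have h1 : U (Fin.cons y x : Fin (k + 1) → QChar F) ε =
        (if ε 0 then y else 1) * U x (Fin.tail ε) := by
      conv_lhs => rw [← Fin.cons_self_tail ε]
      rw [U_cons]
    rw [h1]
    dsimp only
    by_cases h0 : ε 0 = true
    · rw [if_pos h0, if_pos h0, mul_comm]
      exact hl' _ i
    · rw [if_neg h0, if_neg h0, one_mul]
      exact hl _ i
  · have h2 : ∏ ε : Fin (k + 1) → Bool, ∏ i, w ((if ε 0 then l' (Fin.tail ε)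
        else l (Fin.tail ε)) i) = (∏ ε, ∏ i, w (l' ε i)) * ∏ ε, ∏ i, w (l ε i) := by
      rw [← (Fin.consEquiv (fun _ => Bool)).prod_comp, Fintype.prod_prod_type]
      simp [Fin.consEquiv]
    rw [h2, bb_succ]
    exact mul_lt_mul'' hb' hb (bb_nonneg hS j k) (bb_nonneg hS j k)

/-- non-vanishing -/
theorem lgT_ne {k : ℕ} {b : ℝ} (hb : 0 ≤ b) {x : Fin k → QChar F} (h : LgT CV c w b x)
    (ε : Fin k → Bool) (i : ι) :
    ∃ l : ℂ, l ≠ 0 ∧ CV (fun a => c i a * (((U x ε).chi a : ℤ) : ℂ)) l := by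
  obtain ⟨l, hl, hlb⟩ := h
  refine ⟨l ε i, ?_, hl ε i⟩
  intro h0
  have : ∏ ε, ∏ i, w (l ε i) = 0 := by
    apply Finset.prod_eq_zero (Finset.mem_univ ε)
    apply Finset.prod_eq_zero (Finset.mem_univ i)
    rw [h0, map_zero]
  rw [this] at hlb
  exact absurd hlb (not_lt.2 hb)

/-- the group property and the design property for the last entry -/
theorem good_tw (hS : CVSet CV c w B P) [Nonempty ι] {k : ℕ} {j : ℕ} {x : Fin k → QChar F}
    (hx : ∀ n, ((x n).T : Set (Pr F)) ⊆ P) (h : LgT CV c w (bb w B j k) x) :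
    Good P (2 ^ k * (j + 1) - 1) (LgCV CV (cU c (U x)) w (bb w B j k)) := by
  have h1 : 2 ^ k * (j + 1) - 1 + 1 = 2 ^ k * (j + 1) :=
    Nat.sub_add_cancel (Nat.mul_pos (Nat.pow_pos (by norm_num)) (Nat.succ_pos j))
  have h2 : (w 2) ^ (2 ^ k * (j + 1) - 1 + 1) * ∏ p : (Fin k → Bool) × ι, B p.2 =
      bb w B j k := by
    unfold bb
    rw [h1, Fintype.prod_prod_type]
    congr 1
    change ∏ _x : Fin k → Bool, ∏ y, B y = _
    rw [Finset.prod_const, Finset.card_univ, Fintype.card_fun, Fintype.card_bool,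
      Fintype.card_fin]
  have h3 := ND.good ray' inj' (cvset_tw hS (U x) (U_T x hx)) (2 ^ k * (j + 1) - 1) (by
    rw [h2]
    exact base_tw (U x) _ h)
  rw [h2] at h3
  exact h3

open Classical in
/-- the count -/
theorem count_gen (hS : CVSet CV c w B P) [Nonempty ι] (j : ℕ)
    (hbase : LgCV CV c w ((w 2) ^ (j + 1) * ∏ i, B i) (trivQ F)) (κ : ℕ → ℝ)
    (hκ : ∀ m, 0 ≤ κ m) :
    ∀ (k : ℕ) (V : Fin k → Finset (QChar F)), (∀ i, ∀ χ ∈ V i, (χ.T : Set (Pr F)) ⊆ P) →
    (∀ m < k, ∀ i, ∀ x : Fin m → QChar F, (∀ n, ((x n).T : Set (Pr F)) ⊆ P) →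
      LgT CV c w (bb w B j m) x →
      κ m * ((V i).card : ℝ) ≤ ((V i).filter (LgCV CV (cU c (U x)) w (bb w B j m))).card) →
    (∏ m ∈ Finset.range k, κ m) * ∏ i, ((V i).card : ℝ) ≤
      ((Fintype.piFinset V).filter (LgT CV c w (bb w B j k))).card := by
  intro k
  induction k with
  | zero =>
    intro V _ _
    have h1 : (Fintype.piFinset V).filter (LgT CV c w (bb w B j 0)) = Fintype.piFinset V := by
      apply Finset.filter_true_of_mem
      intro x _
      exact lgT_zero j hbase x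
    rw [h1, Fintype.card_piFinset]
    simp
  | succ k ih =>
    intro V hV h
    have h1 := ih (fun i => V i.succ) (fun i => hV i.succ) (fun m hm i => h m (by omega) i.succ)
    set T := (Fintype.piFinset (fun i => V i.succ)).filter (LgT CV c w (bb w B j k)) with hT
    set Z := (Fintype.piFinset V).filter (LgT CV c w (bb w B j (k + 1))) with hZ
    have hTm : ∀ x ∈ T, (∀ n, x n ∈ V n.succ) ∧ LgT CV c w (bb w B j k) x := by
      intro x hx
      obtain ⟨h2, h3⟩ := Finset.mem_filter.1 hx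
      exact ⟨fun n => Fintype.mem_piFinset.1 h2 n, h3⟩
    have h2 : (T.sigma fun x => (V 0).filter (LgCV CV (cU c (U x)) w (bb w B j k))).card ≤
        Z.card := by
      apply Finset.card_le_card_of_injOn (fun p => (Fin.cons p.2 p.1 : Fin (k + 1) → QChar F))
      · rintro ⟨x, y⟩ hp
        obtain ⟨h3, h4⟩ := Finset.mem_sigma.1 (Finset.mem_coe.1 hp)
        obtain ⟨h5, h6⟩ := Finset.mem_filter.1 h4
        obtain ⟨h7, h8⟩ := hTm x h3
        apply Finset.mem_coe.2
        rw [hZ, Finset.mem_filter]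
        refine ⟨?_, lgT_succ hS (fun n => hV _ _ (h7 n)) (hV 0 y h5) h8 h6⟩
        rw [Fintype.mem_piFinset]
        intro i
        refine Fin.cases ?_ (fun n => ?_) i
        · exact h5
        · exact h7 n
      · rintro ⟨x, y⟩ _ ⟨x', y'⟩ _ he
        obtain ⟨e1, e2⟩ := Fin.cons_injective2 he
        simp only at e1 e2
        rw [e1, e2]
    have h3 : (T.card : ℝ) * (κ k * ((V 0).card : ℝ)) ≤
        ((T.sigma fun x => (V 0).filter (LgCV CV (cU c (U x)) w (bb w B j k))).card : ℝ) := by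
      rw [Finset.card_sigma, ← nsmul_eq_mul, ← Finset.sum_const]
      push_cast
      apply Finset.sum_le_sum
      intro x hx
      obtain ⟨h7, h8⟩ := hTm x hx
      exact h k (by omega) 0 x (fun n => hV _ _ (h7 n)) h8
    have h4 : ((T.sigma fun x => (V 0).filter (LgCV CV (cU c (U x)) w (bb w B j k))).card : ℝ) ≤
        (Z.card : ℝ) := by exact_mod_cast h2
    rw [Finset.prod_range_succ, Fin.prod_univ_succ]
    calc (∏ m ∈ Finset.range k, κ m) * κ k * (((V 0).card : ℝ) * ∏ i : Fin k,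
          ((V i.succ).card : ℝ))
        = ((∏ m ∈ Finset.range k, κ m) * ∏ i : Fin k, ((V i.succ).card : ℝ)) *
          (κ k * ((V 0).card : ℝ)) := by ring
      _ ≤ (T.card : ℝ) * (κ k * ((V 0).card : ℝ)) :=
          mul_le_mul_of_nonneg_right h1 (mul_nonneg (hκ k) (Nat.cast_nonneg _))
      _ ≤ _ := h3.trans h4

end

end Pool.Agent.Lib.MP_50bb2e_nt.Tow
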