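import Pool.Agent.Lib.MP_50bb2e_nt.Anf.All
import Pool.Agent.Lib.MP_50bb2e_nt.Imq.Core
import Pool.Agent.Lib.MP_50bb2e_nt.Tow.AllU
import Pool.Agent.Lib.MP_50bb2e_nt.Tow.Ind

/-!
MP_50bb2e_nt, towers: `k`-tuples of characters in a group of good characters, assembly.
-/

namespace Pool.Agent.Lib.MP_50bb2e_nt.Tow

open NumberField IsDedekindDomain Filter Topology
open Pool.Agent.Lib.MP_50bb2e_nt.PP (Pr nm Cop QChar Fam Closed trivQ)
open Pool.Agent.Lib.MP_50bb2e_nt.Imq (CValI NonVanC SettingC)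
open Pool.Agent.Lib.MP_50bb2e_nt.ND (CVSet LgCV Good)
open Pool.Agent.Lib.MP_50bb2e_nt.Anf (Form RCharN PsinStatement)

theorem sumJ (j k : ℕ) : ∑ m ∈ Finset.range k, (2 ^ m * (j + 1) - 1) =
    (2 ^ k - 1) * (j + 1) - k := by
  have h : ∀ k : ℕ, ∑ m ∈ Finset.range k, (2 ^ m * (j + 1) - 1) + k = (2 ^ k - 1) * (j + 1) := by
    intro k
    induction k with
    | zero => simp
    | succ k ih =>
      rw [Finset.sum_range_succ]
      have h1 : 1 ≤ 2 ^ k * (j + 1) := Nat.mul_pos (Nat.pow_pos (by norm_num)) (Nat.succ_pos j)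
      have h2 : 1 ≤ 2 ^ k := Nat.one_le_two_pow
      have h3 : (2 ^ (k + 1) - 1) * (j + 1) = (2 ^ k - 1) * (j + 1) + 2 ^ k * (j + 1) := by
        rw [← add_mul]
        congr 1
        rw [pow_succ]
        omega
      rw [h3, ← ih]
      omega
  have := h k
  omega

variable {K : Type} [Field K] [NumberField K]

/-- a tuple with the property `LgT` generates a group of good characters -/
theorem grp_of_lgT {ι : Type} [Fintype ι] {c : ι → Ideal (𝓞 K) → ℂ} {w : AbsoluteValue ℂ ℝ}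
    {k : ℕ} {b : ℝ} (hb : 0 ≤ b) {x : Fin k → QChar K} (h : LgT CValI c w b x) :
    ∃ W : Set (QChar K), Closed W ∧ (∀ m, x m ∈ W) ∧ ∀ χ ∈ W, ∀ t, NonVanC (c t) χ := by
  refine ⟨Set.range (U x), (closed_iff _).2 ?_, fun m => ⟨_, U_single x m⟩, ?_⟩
  · rintro _ ⟨ε, rfl⟩ _ ⟨ε', rfl⟩
    exact ⟨_, (U_mul x ε ε').symm⟩
  · rintro _ ⟨ε, rfl⟩ t
    exact lgT_ne hb h ε t

open Classical in
theorem fin_all (hpsi : PsinStatement) (K : Type) [Field K] [NumberField K]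
    (v : AbsoluteValue ℂ ℝ) (hna : ∀ x y : ℂ, v (x + y) ≤ max (v x) (v y))
    (h2 : v 2 < 1) (ι : Type) [Fintype ι] [Nonempty ι] (n D : ι → Ideal (𝓞 K))
    (c ψ : ι → Ideal (𝓞 K) → ℂ)
    (hf : ∀ t, n t ≠ ⊥ ∧ D t ≠ ⊥ ∧ Form (n t) (c t) ∧ RCharN (D t) (ψ t))
    (hl : ∀ t, ∃ l : ℂ, l ≠ 0 ∧ CValI (fun a => c t a * ψ t a) l) :
    ∃ j : ℕ, ∀ P : Set (Pr K),
      (∀ u ∈ P, Odd (nm u) ∧ ∀ t, ¬ n t ≤ u.asIdeal ∧ ¬ D t ≤ u.asIdeal ∧
        v (1 - c t u.asIdeal * ψ t u.asIdeal + ψ t u.asIdeal ^ 2) = 1) →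
      (∀ S : Set (Pr K), S.Finite →
        (∃ a : ℝ, 0 < a ∧ ∀ᶠ Y : ℕ in atTop, a * Y / Real.log Y ≤
          Set.ncard {u : Pr K | Y < nm u ∧ nm u ≤ 2 * Y ∧ ∃ χ ∈ Fam P S, χ.T = {u}}) →
        ∀ k : ℕ, ∃ κ : ℝ, 0 < κ ∧ ∀ᶠ X : ℕ in atTop,
          κ * (Set.ncard {χ : QChar K | χ ∈ Fam P S ∧ χ.cond ≤ X} : ℝ) ^ k ≤
            Set.ncard {x : Fin k → QChar K | (∀ m, x m ∈ Fam P S ∧ (x m).cond ≤ X) ∧
              ∃ W : Set (QChar K), Closed W ∧ (∀ m, x m ∈ W) ∧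
                ∀ χ ∈ W, ∀ t, NonVanC (fun a => c t a * ψ t a) χ}) ∧
      (∀ (k : ℕ) (V : Fin k → Finset (QChar K)), (∀ m, (V m).Nonempty ∧
        (∀ χ ∈ V m, (χ.T : Set (Pr K)) ⊆ P) ∧ Closed (V m : Set (QChar K))) →
        ∏ m, (V m).card ≤ 2 ^ ((2 ^ k - 1) * (j + 1) - k) *
          ((Fintype.piFinset V).filter (fun x => ∃ W : Set (QChar K), Closed W ∧
            (∀ m, x m ∈ W) ∧ ∀ χ ∈ W, ∀ t, NonVanC (fun a => c t a * ψ t a) χ)).card) ∧
      (∀ S : Set (Pr K), ∀ σ : ℝ, 0 ≤ σ →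
        ∑' χ : Fam P S, ENNReal.ofReal ((χ.1.cond : ℝ) ^ (-σ)) ≤
          2 ^ j * ∑' χ : {χ : QChar K // χ ∈ Fam P S ∧
              ∀ t, NonVanC (fun a => c t a * ψ t a) χ},
            ENNReal.ofReal ((χ.1.cond : ℝ) ^ (-σ))) := by
  choose l hl0 hlv using hl
  have h := fun t => hpsi K (n t) (c t) (hf t).1 (hf t).2.2.1 v hna h2 (D t) (ψ t)
    (hf t).2.1 (hf t).2.2.2
  choose B hB using h
  have hpos : 0 < ∏ t, v (l t) := Finset.prod_pos (fun t _ => v.pos (hl0 t))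
  obtain ⟨j, hj⟩ := Imq.Finc.exists_exp (v 2) (∏ t, B t) (∏ t, v (l t)) (v.nonneg 2) h2 hpos
  refine ⟨j, fun P hP => ?_⟩
  have hS := fun t => hB t P (fun u hu => ⟨(hP u hu).1, ((hP u hu).2 t).1, ((hP u hu).2 t).2.1,
      ((hP u hu).2 t).2.2⟩)
  have hm := Imq.Core.mnc K ι (fun t a => c t a * ψ t a) v B P (fun t u => ψ t u.asIdeal ^ 2) j l
    hS hlv hj
  have hcv : CVSet CValI (fun t a => c t a * ψ t a) v B P :=
    Imq.Mac.cvset_c Imq.Unic.unic_proof Imq.Core.lmc hS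
  have hbase : LgCV CValI (fun t a => c t a * ψ t a) v ((v 2) ^ (j + 1) * ∏ i, B i)
      (trivQ K) := by
    refine ⟨l, fun t => ?_, hj⟩
    have h1 : (fun a => (fun t a => c t a * ψ t a) t a * ((trivQ K).chi a : ℂ)) =
        fun a => c t a * ψ t a := by
      funext a
      by_cases ha : a = ⊥
      · subst ha
        have := (hS t).bot
        simp only at this ⊢
        rw [this, zero_mul]
      · simp [trivQ, ha]
    rw [h1]
    exact hlv t
  refine ⟨?_, ?_, hm.2.1⟩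
  · intro S hSf hC k
    have hn := fun m : ℕ => ndU K P S (2 ^ m * (j + 1) - 1) (fun u hu => (hP u hu).1) hSf hC
    choose κ X0 hκ hX0 using hn
    refine ⟨∏ m ∈ Finset.range k, κ m, Finset.prod_pos fun m _ => hκ m, ?_⟩
    filter_upwards [Filter.eventually_ge_atTop (∑ m ∈ Finset.range k, X0 m)] with X hX
    have hfin : {χ : QChar K | χ.cond ≤ X}.Finite := (PP.summ PP.fin' K).1 X
    have hfin' : {χ : QChar K | χ ∈ Fam P S ∧ χ.cond ≤ X}.Finite :=
      hfin.subset fun χ hχ => hχ.2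
    set A : Finset (QChar K) := hfin'.toFinset with hA
    have hAm : ∀ χ, χ ∈ A ↔ χ ∈ Fam P S ∧ χ.cond ≤ X := by
      intro χ
      rw [hA, Set.Finite.mem_toFinset]
      rfl
    have hAc : Set.ncard {χ : QChar K | χ ∈ Fam P S ∧ χ.cond ≤ X} = A.card := by
      rw [Set.ncard_eq_toFinset_card _ hfin']
    have h3 := count_gen hcv j hbase κ (fun m => (hκ m).le) k (fun _ => A)
      (fun _ χ hχ => ((hAm χ).1 hχ).1.1) (by
        intro m hm _ x hx hxl
        have h4 := hX0 m _ (good_tw hcv hx hxl) X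
          ((Finset.single_le_sum (fun m _ => Nat.zero_le _) (Finset.mem_range.2 hm)).trans hX)
        rw [hAc] at h4
        refine h4.trans ?_
        rw [← Set.ncard_coe_finset]
        apply le_of_eq
        congr 2
        ext χ
        simp only [Set.mem_ofPred_eq, Finset.coe_filter, hAm]
        tauto)
    rw [Finset.prod_const, Finset.card_univ, Fintype.card_fin] at h3
    rw [hAc]
    refine h3.trans ?_
    rw [← Set.ncard_coe_finset]
    have h5 : {x : Fin k → QChar K | (∀ m, x m ∈ Fam P S ∧ (x m).cond ≤ X) ∧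
        ∃ W : Set (QChar K), Closed W ∧ (∀ m, x m ∈ W) ∧
          ∀ χ ∈ W, ∀ t, NonVanC (fun a => c t a * ψ t a) χ} ⊆
        ((Fintype.piFinset fun _ : Fin k => A : Finset (Fin k → QChar K)) :
          Set (Fin k → QChar K)) := by
      intro x hx
      apply Finset.mem_coe.2
      rw [Fintype.mem_piFinset]
      exact fun m => (hAm _).2 (hx.1 m)
    have h6 := Set.ncard_le_ncard (s := (((Fintype.piFinset fun _ : Fin k => A).filter
        (LgT CValI (fun t a => c t a * ψ t a) v (bb v B j k)) : Finset (Fin k → QChar K)) :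
          Set (Fin k → QChar K)))
      (t := {x : Fin k → QChar K | (∀ m, x m ∈ Fam P S ∧ (x m).cond ≤ X) ∧
        ∃ W : Set (QChar K), Closed W ∧ (∀ m, x m ∈ W) ∧
          ∀ χ ∈ W, ∀ t, NonVanC (fun a => c t a * ψ t a) χ}) (by
        intro x hx
        obtain ⟨h7, h8⟩ := Finset.mem_filter.1 (Finset.mem_coe.1 hx)
        exact ⟨fun m => (hAm _).1 (Fintype.mem_piFinset.1 h7 m),
          grp_of_lgT (bb_nonneg hcv j k) h8⟩)
      ((Finset.finite_toSet _).subset h5)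
    exact_mod_cast h6
  · intro k V hV
    have h3 := count_gen hcv j hbase (fun m => ((2 : ℝ) ^ (2 ^ m * (j + 1) - 1))⁻¹)
      (fun m => by positivity) k V (fun m => (hV m).2.1) (by
        intro m _ i x hx hxl
        have h4 := (good_tw hcv hx hxl).grp (V i) (hV i).1 (hV i).2.1 (hV i).2.2
        rw [inv_mul_le_iff₀ (by positivity)]
        exact_mod_cast h4)
    rw [Finset.prod_inv_distrib, inv_mul_le_iff₀ (Finset.prod_pos fun m _ => by positivity),
      Finset.prod_pow_eq_pow_sum, sumJ] at h3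
    have h5 : ∏ m, (V m).card ≤ 2 ^ ((2 ^ k - 1) * (j + 1) - k) *
        ((Fintype.piFinset V).filter
          (LgT CValI (fun t a => c t a * ψ t a) v (bb v B j k))).card := by
      exact_mod_cast h3
    refine h5.trans (Nat.mul_le_mul_left _ (Finset.card_le_card ?_))
    intro x hx
    rw [Finset.mem_filter] at hx ⊢
    exact ⟨hx.1, grp_of_lgT (bb_nonneg hcv j k) hx.2⟩

theorem psin : PsinStatement :=
  Anf.Psin.psin_proof Anf.aint Imq.Unic.unic_proof Anf.Rayn.rayn_proof Imq.Sumz.sumz_proof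

end Pool.Agent.Lib.MP_50bb2e_nt.Tow
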