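import Pool.Agent.Lib.MP_50bb2e_nt.PP.All

/-!
MP_50bb2e_nt, towers: the group of quadratic ray class characters with square-free conductor
(product = primitive character inducing the product), ramification of a product, infinite groups
contain characters with pairwise coprime conductors.
-/

open IsDedekindDomain NumberField

namespace Pool.Agent.Lib.MP_50bb2e_nt.Tow

open Pool.Agent.Lib.MP_50bb2e_nt.PP

variable {F : Type} [Field F] [NumberField F]

theorem chi_ne {χ : QChar F} {a : Ideal (𝓞 F)} (ha : a ≠ ⊥) (h : Cop χ.T a) : χ.chi a ≠ 0 := by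
  rcases χ.val a ha h with h | h <;> rw [h] <;> norm_num

theorem chi_ne_iff {χ : QChar F} {a : Ideal (𝓞 F)} : χ.chi a ≠ 0 ↔ a ≠ ⊥ ∧ Cop χ.T a := by
  constructor
  · intro h
    refine ⟨?_, ?_⟩
    · rintro rfl
      exact h χ.bot
    · by_contra h'
      exact h (χ.zero a h')
  · rintro ⟨h, h'⟩
    exact chi_ne h h'

theorem chi_sq {χ : QChar F} {a : Ideal (𝓞 F)} (h : χ.chi a ≠ 0) : χ.chi a * χ.chi a = 1 := by
  obtain ⟨h1, h2⟩ := chi_ne_iff.1 h
  rcases χ.val a h1 h2 with h | h <;> rw [h] <;> norm_num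

theorem cop_union {T T' : Finset (Pr F)} [DecidableEq (Pr F)] {a : Ideal (𝓞 F)} :
    Cop (T ∪ T') a ↔ Cop T a ∧ Cop T' a := by
  constructor
  · intro h
    exact ⟨fun v hv => h v (Finset.mem_union_left _ hv),
      fun v hv => h v (Finset.mem_union_right _ hv)⟩
  · rintro ⟨h, h'⟩ v hv
    rcases Finset.mem_union.1 hv with hv | hv
    · exact h v hv
    · exact h' v hv

/-- two primitive characters which agree on the ideals coprime to a finite set are equal -/
theorem ext_cop {χ ψ : QChar F} (T : Finset (Pr F))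
    (h : ∀ a : Ideal (𝓞 F), a ≠ ⊥ → Cop T a → χ.chi a = ψ.chi a) : χ = ψ :=
  inj' F χ ψ T fun a ha hT _ _ => h a ha hT

/-- the primitive character inducing the product -/
noncomputable def mulQ (χ ψ : QChar F) : QChar F := (prim' F χ ψ).choose

theorem mulQ_T (χ ψ : QChar F) {v : Pr F} (hv : v ∈ (mulQ χ ψ).T) : v ∈ χ.T ∨ v ∈ ψ.T :=
  (prim' F χ ψ).choose_spec.1 v hv

theorem mulQ_chi (χ ψ : QChar F) {a : Ideal (𝓞 F)} (h : χ.chi a ≠ 0) (h' : ψ.chi a ≠ 0) :
    (mulQ χ ψ).chi a = χ.chi a * ψ.chi a :=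
  (prim' F χ ψ).choose_spec.2 a h h'

theorem mulQ_ne (χ ψ : QChar F) {a : Ideal (𝓞 F)} (h : χ.chi a ≠ 0) (h' : ψ.chi a ≠ 0) :
    (mulQ χ ψ).chi a ≠ 0 := by
  rw [mulQ_chi χ ψ h h']
  exact mul_ne_zero h h'

theorem trivQ_chi {a : Ideal (𝓞 F)} (ha : a ≠ ⊥) : (trivQ F).chi a = 1 := by
  simp [trivQ, ha]

/-- The group of quadratic characters. -/
noncomputable instance grp : CommGroup (QChar F) where
  mul := mulQ
  one := trivQ F
  inv := id
  mul_assoc := by
    classical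
    intro χ ψ ρ
    apply ext_cop (χ.T ∪ ψ.T ∪ ρ.T)
    intro a ha hc
    obtain ⟨hc, h3⟩ := cop_union.1 hc
    obtain ⟨h1, h2⟩ := cop_union.1 hc
    have n1 := chi_ne ha h1
    have n2 := chi_ne ha h2
    have n3 := chi_ne ha h3
    change (mulQ (mulQ χ ψ) ρ).chi a = (mulQ χ (mulQ ψ ρ)).chi a
    rw [mulQ_chi _ _ (mulQ_ne _ _ n1 n2) n3, mulQ_chi _ _ n1 n2,
      mulQ_chi _ _ n1 (mulQ_ne _ _ n2 n3), mulQ_chi _ _ n2 n3, mul_assoc]
  one_mul := by
    intro χ
    apply ext_cop χ.T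
    intro a ha hc
    have n1 := chi_ne ha hc
    have n0 : (trivQ F).chi a ≠ 0 := by rw [trivQ_chi ha]; norm_num
    change (mulQ (trivQ F) χ).chi a = χ.chi a
    rw [mulQ_chi _ _ n0 n1, trivQ_chi ha, one_mul]
  mul_one := by
    intro χ
    apply ext_cop χ.T
    intro a ha hc
    have n1 := chi_ne ha hc
    have n0 : (trivQ F).chi a ≠ 0 := by rw [trivQ_chi ha]; norm_num
    change (mulQ χ (trivQ F)).chi a = χ.chi a
    rw [mulQ_chi _ _ n1 n0, trivQ_chi ha, mul_one]
  inv_mul_cancel := by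
    intro χ
    apply ext_cop χ.T
    intro a ha hc
    have n1 := chi_ne ha hc
    change (mulQ χ χ).chi a = (trivQ F).chi a
    rw [mulQ_chi _ _ n1 n1, trivQ_chi ha, chi_sq n1]
  mul_comm := by
    classical
    intro χ ψ
    apply ext_cop (χ.T ∪ ψ.T)
    intro a ha hc
    obtain ⟨h1, h2⟩ := cop_union.1 hc
    have n1 := chi_ne ha h1
    have n2 := chi_ne ha h2
    change (mulQ χ ψ).chi a = (mulQ ψ χ).chi a
    rw [mulQ_chi _ _ n1 n2, mulQ_chi _ _ n2 n1, mul_comm]

theorem mul_T (χ ψ : QChar F) {v : Pr F} (hv : v ∈ (χ * ψ).T) : v ∈ χ.T ∨ v ∈ ψ.T :=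
  mulQ_T χ ψ hv

theorem mul_chi (χ ψ : QChar F) {a : Ideal (𝓞 F)} (h : χ.chi a ≠ 0) (h' : ψ.chi a ≠ 0) :
    (χ * ψ).chi a = χ.chi a * ψ.chi a :=
  mulQ_chi χ ψ h h'

theorem mul_self' (χ : QChar F) : χ * χ = 1 := by
  have := inv_mul_cancel χ
  exact this

theorem one_T : (1 : QChar F).T = ∅ := rfl

theorem one_chi {a : Ideal (𝓞 F)} (ha : a ≠ ⊥) : (1 : QChar F).chi a = 1 := trivQ_chi ha

theorem mul_mul_self (χ ψ : QChar F) : χ * ψ * ψ = χ := by
  rw [mul_assoc, mul_self', mul_one]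

/-- a prime at which exactly one factor is ramified -/
theorem mem_T_mul {χ ψ : QChar F} {v : Pr F} (h : v ∈ χ.T) (h' : v ∉ ψ.T) : v ∈ (χ * ψ).T := by
  have h1 : v ∈ (χ * ψ * ψ).T := by
    rw [mul_mul_self]
    exact h
  rcases mul_T _ _ h1 with h2 | h2
  · exact h2
  · exact absurd h2 h'

/-- a prime at which both factors are ramified -/
theorem notMem_T_mul {χ ψ : QChar F} {v : Pr F} (hχ : v ∈ χ.T) (hψ : v ∈ ψ.T) :
    v ∉ (χ * ψ).T := by
  classical
  intro hv
  obtain ⟨α, a1, a2, a3⟩ := (χ * ψ).ram v hv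
  obtain ⟨β, b0, b1⟩ := crt F (χ.T ∪ ψ.T ∪ (χ * ψ).T) (fun u => if u = v then α else 1)
  have c1 : β - α ∈ v.asIdeal := by
    simpa using b1 v (Finset.mem_union_right _ hv)
  have c2 : ∀ u ∈ χ.T ∪ ψ.T ∪ (χ * ψ).T, u ≠ v → β - 1 ∈ u.asIdeal := by
    intro u hu huv
    simpa [huv] using b1 u hu
  have c3 : β ∉ v.asIdeal := by
    intro h
    apply a1
    have := v.asIdeal.sub_mem h c1
    rwa [sub_sub_cancel] at this
  have c4 : ∀ u ∈ χ.T ∪ ψ.T ∪ (χ * ψ).T, β ∉ u.asIdeal := by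
    intro u hu
    by_cases huv : u = v
    · rw [huv]; exact c3
    · exact fin_mem u β (c2 u hu huv)
  have hα0 : α ≠ 0 := fun h => a1 (h ▸ v.asIdeal.zero_mem)
  have d1 : (χ * ψ).chi (Ideal.span {α}) = (χ * ψ).chi (Ideal.span {β}) := by
    refine ray' F (χ * ψ) α β hα0 b0 ?_
    intro u hu
    by_cases huv : u = v
    · subst huv
      refine ⟨a1, ?_⟩
      have := u.asIdeal.neg_mem c1
      rwa [neg_sub] at this
    · refine ⟨fin_mem u α (a2 u hu huv), ?_⟩
      have e : α - β = (α - 1) - (β - 1) := by ring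
      rw [e]
      exact u.asIdeal.sub_mem (a2 u hu huv) (c2 u (Finset.mem_union_right _ hu) huv)
  have l1 := loc' F χ v β hχ c3
    (fun u hu huv => c2 u (Finset.mem_union_left _ (Finset.mem_union_left _ hu)) huv)
  have l2 := loc' F ψ v β hψ c3
    (fun u hu huv => c2 u (Finset.mem_union_left _ (Finset.mem_union_right _ hu)) huv)
  have hbne : (Ideal.span {β} : Ideal (𝓞 F)) ≠ ⊥ := by
    rw [Ne, Ideal.span_singleton_eq_bot]; exact b0
  have hcop1 : Cop χ.T (Ideal.span {β}) := by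
    intro u hu h
    exact c4 u (Finset.mem_union_left _ (Finset.mem_union_left _ hu))
      ((Ideal.span_singleton_le_iff_mem _).1 h)
  have hcop2 : Cop ψ.T (Ideal.span {β}) := by
    intro u hu h
    exact c4 u (Finset.mem_union_left _ (Finset.mem_union_right _ hu))
      ((Ideal.span_singleton_le_iff_mem _).1 h)
  have v1 := χ.val _ hbne hcop1
  have v2 := ψ.val _ hbne hcop2
  have e := mul_chi χ ψ (chi_ne hbne hcop1) (chi_ne hbne hcop2)
  rw [← d1, a3] at e
  rcases v1 with h | h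
  · have h' := l2.2 (l1.1 h)
    rw [h, h'] at e
    norm_num at e
  · rcases v2 with h' | h'
    · have h'' := l1.2 (l2.1 h')
      rw [h] at h''
      norm_num at h''
    · rw [h, h'] at e
      norm_num at e

open Classical in
/-- coprime conductors: the product character has all the values -/
theorem mul_T_disj {χ ψ : QChar F} (h : Disjoint χ.T ψ.T) : (χ * ψ).T = χ.T ∪ ψ.T := by
  ext v
  rw [Finset.mem_union]
  constructor
  · exact mul_T χ ψ
  · rintro (hv | hv)
    · exact mem_T_mul hv (Finset.disjoint_left.1 h hv)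
    · rw [mul_comm]
      exact mem_T_mul hv (Finset.disjoint_right.1 h hv)

theorem mul_chi_disj {χ ψ : QChar F} (h : Disjoint χ.T ψ.T) (a : Ideal (𝓞 F)) :
    (χ * ψ).chi a = χ.chi a * ψ.chi a := by
  classical
  by_cases ha : a = ⊥
  · rw [ha, (χ * ψ).bot, χ.bot, zero_mul]
  by_cases h1 : Cop χ.T a
  · by_cases h2 : Cop ψ.T a
    · exact mul_chi _ _ (chi_ne ha h1) (chi_ne ha h2)
    · rw [ψ.zero a h2, mul_zero]
      apply (χ * ψ).zero
      rw [mul_T_disj h, cop_union]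
      exact fun h => h2 h.2
  · rw [χ.zero a h1, zero_mul]
    apply (χ * ψ).zero
    rw [mul_T_disj h, cop_union]
    exact fun h => h1 h.1

/-- closed sets are closed under the product of the group -/
theorem closed_iff (V : Set (QChar F)) : Closed V ↔ ∀ χ ∈ V, ∀ ψ ∈ V, χ * ψ ∈ V := by
  classical
  constructor
  · intro h χ hχ ψ hψ
    obtain ⟨ρ, hρ, h1⟩ := h χ hχ ψ hψ
    have : χ * ψ = ρ := by
      apply ext_cop (χ.T ∪ ψ.T)
      intro a ha hc
      obtain ⟨c1, c2⟩ := cop_union.1 hc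
      rw [h1 a (chi_ne ha c1) (chi_ne ha c2), mul_chi _ _ (chi_ne ha c1) (chi_ne ha c2)]
    rw [this]
    exact hρ
  · intro h χ hχ ψ hψ
    exact ⟨χ * ψ, h χ hχ ψ hψ, fun a h1 h2 => mul_chi χ ψ h1 h2⟩

/-- An infinite group of characters contains a non-trivially ramified character which is
unramified at a given finite set of primes. -/
theorem exists_avoid {V : Set (QChar F)} (hV : V.Infinite) (hc : ∀ χ ∈ V, ∀ ψ ∈ V, χ * ψ ∈ V)
    (A : Finset (Pr F)) : ∃ χ ∈ V, χ.T.Nonempty ∧ Disjoint χ.T A := by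
  classical
  -- pigeonhole for the ramification in `A`
  obtain ⟨B, hB⟩ : ∃ B : Finset (Pr F), {χ | χ ∈ V ∧ χ.T ∩ A = B}.Infinite := by
    by_contra h
    push Not at h
    apply hV
    have h1 : V ⊆ ⋃ B ∈ A.powerset, {χ | χ ∈ V ∧ χ.T ∩ A = B} := by
      intro χ hχ
      simp only [Set.mem_iUnion]
      exact ⟨χ.T ∩ A, Finset.mem_powerset.2 Finset.inter_subset_right, hχ, rfl⟩
    refine Set.Finite.subset (Set.Finite.biUnion A.powerset.finite_toSet ?_) h1
    intro B _
    exact h B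
  obtain ⟨χ0, hχ0, hB0⟩ := hB.nonempty
  have hinf : ((fun χ => χ0 * χ) '' {χ | χ ∈ V ∧ χ.T ∩ A = B}).Infinite :=
    hB.image (fun x _ y _ h => mul_left_cancel h)
  obtain ⟨C, hC⟩ := fin' F
  obtain ⟨ρ, hρ1, hρ2⟩ := (hinf.sdiff (hC ∅).1).nonempty
  obtain ⟨χ, ⟨hχ, hBχ⟩, rfl⟩ := hρ1
  refine ⟨χ0 * χ, hc _ hχ0 _ hχ, ?_, ?_⟩
  · rw [Finset.nonempty_iff_ne_empty]
    exact hρ2
  · rw [Finset.disjoint_left]
    intro v hv hvA
    have key : v ∈ χ0.T ↔ v ∈ χ.T := by
      have h1 : v ∈ χ0.T ∩ A ↔ v ∈ χ.T ∩ A := by rw [hB0, hBχ]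
      simpa [Finset.mem_inter, hvA] using h1
    rcases mul_T _ _ hv with h | h
    · exact notMem_T_mul h (key.1 h) hv
    · exact notMem_T_mul (key.2 h) h hv

/-- An infinite group of characters contains infinitely many characters with pairwise coprime
conductors, unramified at a given finite set of primes. -/
theorem exists_seq {V : Set (QChar F)} (hV : V.Infinite) (hc : ∀ χ ∈ V, ∀ ψ ∈ V, χ * ψ ∈ V)
    (A : Finset (Pr F)) : ∃ e : ℕ → QChar F, (∀ i, e i ∈ V ∧ (e i).T.Nonempty ∧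
      Disjoint (e i).T A) ∧ Pairwise fun i k => Disjoint (e i).T (e k).T := by
  classical
  choose f hf using exists_avoid hV hc
  -- the finite sets of primes used up to step `n`
  let G : ℕ → Finset (Pr F) := fun n => Nat.rec A (fun _ B => B ∪ (f B).T) n
  have hG : ∀ n, G (n + 1) = G n ∪ (f (G n)).T := fun n => rfl
  have hmono : Monotone G := monotone_nat_of_le_succ fun n => by
    rw [hG]
    exact Finset.subset_union_left
  refine ⟨fun n => f (G n), fun i => ⟨(hf _).1, (hf _).2.1, ?_⟩, ?_⟩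
  · exact (hf (G i)).2.2.mono_right (hmono (Nat.zero_le i))
  · have key : ∀ i k, i < k → Disjoint (f (G i)).T (f (G k)).T := by
      intro i k hik
      refine Disjoint.symm ((hf (G k)).2.2.mono_right ?_)
      have h1 : (f (G i)).T ⊆ G (i + 1) := by
        rw [hG]
        exact Finset.subset_union_right
      exact h1.trans (hmono hik)
    intro i k hik
    rcases lt_or_gt_of_ne hik with h | h
    · exact key i k h
    · exact (key k i h).symm

end Pool.Agent.Lib.MP_50bb2e_nt.Tow
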