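import Pool.Agent.Lib.MP_50bb2e_nt.ND.Iface

/-!
MP_50bb2e_nt, towers: the statements of the board ND with constants which do not depend on the
predicate `Lg`.
-/

open IsDedekindDomain NumberField Filter Topology

namespace Pool.Agent.Lib.MP_50bb2e_nt.Tow

open Pool.Agent.Lib.MP_50bb2e_nt.PP
open Pool.Agent.Lib.MP_50bb2e_nt.ND

/-- `LoccStatement` with constants uniform in `Lg` -/
def LoccU : Prop :=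
  ∀ (F : Type) [Field F] [NumberField F] (P S : Set (Pr F)) (j : ℕ),
    Cheb (PC P S) → ∀ ch : Pr F → QChar F,
    (∀ v ∈ PC P S, ch v ∈ Fam P S ∧ (ch v).T = {v}) →
    ∃ (k : ℕ) (c : ℝ) (u2 : ℕ), 1 ≤ k ∧ 0 < c ∧ ∀ Lg : QChar F → Prop, Good P j Lg →
      ∀ u0 : ℕ, u2 ≤ u0 →
      ∀ χ : QChar F, χ ∈ Fam P S → Lg χ → (∀ v ∈ χ.T, (nm v) ^ 2 ≤ 2 ^ u0) →
      ∃ W : Finset (Finset (Pr F)), c * 2 ^ (k * u0) / u0 ≤ W.card ∧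
        ∀ R ∈ W, (∀ v ∈ R, v ∈ PC P S ∧ 2 ^ u0 < (nm v) ^ 2) ∧
          ∏ v ∈ R, nm v ≤ 2 ^ (k * u0 + k) ∧
          ∃ ρ ∈ Fam P S, Lg ρ ∧ (∀ v, v ∈ ρ.T ↔ v ∈ χ.T ∨ v ∈ R) ∧
            ρ.cond = χ.cond * ∏ v ∈ R, nm v ∧
            ∀ a, ρ.chi a = χ.chi a * ∏ v ∈ R, (ch v).chi a

/-- `MsumStatement` with constants uniform in `Lg` -/
def MsumU : Prop :=
  ∀ (F : Type) [Field F] [NumberField F] (P S : Set (Pr F)) (j : ℕ),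
    Cheb (PC P S) →
    ∃ (c e : ℝ) (X0 : ℕ), 0 < c ∧ 0 < e ∧ e ≤ 1 ∧ ∀ Lg : QChar F → Prop, Good P j Lg →
      ∀ X : ℕ, X0 ≤ X →
      ∀ Φ : Finset (QChar F),
        (∀ χ ∈ Φ, χ ∈ Fam P S ∧ Lg χ ∧ (χ.cond : ℝ) ≤ (X : ℝ) ^ e) →
        c * (X / Real.log X) * ∑ χ ∈ Φ, 1 / (χ.cond : ℝ) ≤
          Set.ncard {χ : QChar F | χ ∈ Fam P S ∧ Lg χ ∧ χ.cond ≤ X}

/-- `LdStatement` with constants uniform in `Lg` -/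
def LdU : Prop :=
  ∀ (F : Type) [Field F] [NumberField F] (P S : Set (Pr F)) (j : ℕ),
    (∀ v ∈ P, Odd (nm v)) → S.Finite →
    ∃ c : ℝ, 0 < c ∧ ∀ Lg : QChar F → Prop, Good P j Lg → ∀ Y : ℝ, 1 ≤ Y → ∀ A : Finset (Pr F),
      (∀ v ∈ A, v ∈ P ∧ (nm v : ℝ) ≤ Y) →
      ∃ Φ : Finset (QChar F), (∀ χ ∈ Φ, χ ∈ Fam P S ∧ Lg χ ∧ (χ.cond : ℝ) ≤ Y) ∧
        c * ∏ v ∈ A, (1 + 1 / (nm v : ℝ)) ≤ ∑ χ ∈ Φ, 1 / (χ.cond : ℝ)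

/-- `NdStatement` with constants uniform in `Lg` -/
def NdU : Prop :=
  ∀ (F : Type) [Field F] [NumberField F] (P S : Set (Pr F)) (j : ℕ),
    (∀ v ∈ P, Odd (nm v)) → S.Finite → Cheb (PC P S) →
    ∃ (κ : ℝ) (X0 : ℕ), 0 < κ ∧ ∀ Lg : QChar F → Prop, Good P j Lg → ∀ X : ℕ, X0 ≤ X →
      κ * Set.ncard {χ : QChar F | χ ∈ Fam P S ∧ χ.cond ≤ X} ≤
        Set.ncard {χ : QChar F | χ ∈ Fam P S ∧ Lg χ ∧ χ.cond ≤ X}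

end Pool.Agent.Lib.MP_50bb2e_nt.Tow
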