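import Pool.Agent.Lib.MP_50bb2e_nt.Tow.Fam
import Pool.Agent.Lib.MP_50bb2e_nt.Tow.Comb
import Pool.Agent.Lib.MP_50bb2e_nt.Anf.All

/-!
MP_50bb2e_nt, towers: the main theorem. Every finite group of characters with non-vanishing
central values extends, inside any infinite group of characters supported on good primes, to an
infinite group of characters with non-vanishing central values.
-/

open IsDedekindDomain NumberField Filter Topology

namespace Pool.Agent.Lib.MP_50bb2e_nt.Tow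

open Pool.Agent.Lib.MP_50bb2e_nt.PP (Pr nm Cop QChar Fam Closed)
open Pool.Agent.Lib.MP_50bb2e_nt.Imq (CValI NonVanC)
open Pool.Agent.Lib.MP_50bb2e_nt.Anf (Form RCharN RayN)

variable {K : Type} [Field K] [NumberField K]

/-! ### The product of a ray class character and a quadratic character -/

/-- the modulus of the product -/
noncomputable def modQ (D : Ideal (𝓞 K)) (χ : QChar K) : Ideal (𝓞 K) :=
  D * ∏ v ∈ χ.T, v.asIdeal

theorem modQ_le (D : Ideal (𝓞 K)) (χ : QChar K) : modQ D χ ≤ D := Ideal.mul_le_left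

theorem modQ_le' (D : Ideal (𝓞 K)) (χ : QChar K) {v : Pr K} (hv : v ∈ χ.T) :
    modQ D χ ≤ v.asIdeal :=
  Ideal.mul_le_right.trans (Ideal.le_of_dvd (Finset.dvd_prod_of_mem _ hv))

theorem modQ_ne {D : Ideal (𝓞 K)} (hD : D ≠ ⊥) (χ : QChar K) : modQ D χ ≠ ⊥ :=
  mul_ne_zero (M₀ := Ideal (𝓞 K)) hD (Finset.prod_ne_zero_iff.2 fun v _ => v.ne_bot)

theorem eq_of_le {u v : Pr K} (h : u.asIdeal ≤ v.asIdeal) : u = v := by
  apply HeightOneSpectrum.ext
  exact u.isMaximal.eq_of_le v.isPrime.ne_top h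

theorem modQ_not_le {D : Ideal (𝓞 K)} {χ : QChar K} {v : Pr K} (h : ¬ D ≤ v.asIdeal)
    (hv : v ∉ χ.T) : ¬ modQ D χ ≤ v.asIdeal := by
  intro h1
  rcases (v.isPrime.mul_le).1 h1 with h2 | h2
  · exact h h2
  · obtain ⟨u, hu, hle⟩ := (Ideal.IsPrime.prod_le v.isPrime).1 h2
    rw [eq_of_le hle] at hu
    exact hv hu

theorem rchar_mul {D : Ideal (𝓞 K)} {ψ : Ideal (𝓞 K) → ℂ} (h : RCharN D ψ) (χ : QChar K) :
    RCharN (modQ D χ) (fun a => ψ a * (χ.chi a : ℂ)) := by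
  refine ⟨?_, ?_, ?_, ?_, ?_, ?_⟩
  · simp [h.bot]
  · simp [h.top, χ.top]
  · intro a b
    simp only [h.mul, χ.mul]
    push_cast
    ring
  · intro a ha
    by_contra h0
    apply ha
    have h1 : ψ a ≠ 0 := left_ne_zero_of_mul h0
    have h2 : χ.chi a ≠ 0 := by
      have := right_ne_zero_of_mul h0
      exact_mod_cast this
    have c1 : IsCoprime D a := by
      rw [Ideal.isCoprime_iff_sup_eq]
      by_contra h3
      exact h1 (h.zero a h3)
    have c2 : IsCoprime (∏ v ∈ χ.T, v.asIdeal) a := by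
      apply IsCoprime.prod_left
      intro v hv
      rw [Ideal.isCoprime_iff_sup_eq]
      have h3 := (chi_ne_iff.1 h2).2 v hv
      by_contra h4
      apply h3
      have h5 : v.asIdeal = v.asIdeal ⊔ a := v.isMaximal.eq_of_le h4 le_sup_left
      rw [h5]
      exact le_sup_right
    have := IsCoprime.mul_left c1 c2
    rwa [Ideal.isCoprime_iff_sup_eq] at this
  · obtain ⟨m, hm, h1⟩ := h.fin
    refine ⟨m * 2, by omega, ?_⟩
    intro a ha hc
    have h2 : D ⊔ a = ⊤ := by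
      rw [eq_top_iff, ← hc]
      exact sup_le_sup_right (modQ_le D χ) a
    have h3 : χ.chi a ≠ 0 := by
      rw [chi_ne_iff]
      refine ⟨ha, ?_⟩
      intro v hv hle
      have h4 : modQ D χ ⊔ a ≤ v.asIdeal := sup_le (modQ_le' D χ hv) hle
      rw [hc, top_le_iff] at h4
      exact v.isPrime.ne_top h4
    have h5 : ((χ.chi a : ℂ)) ^ 2 = 1 := by
      have := chi_sq h3
      rw [sq]
      exact_mod_cast this
    rw [mul_pow, pow_mul, h1 a ha h2, one_pow, one_mul, mul_comm m 2, pow_mul, h5, one_pow]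
  · intro a b hab
    obtain ⟨α, β, hα, hβ, h1, h2, h3, h4, h5⟩ := hab
    have e1 : ψ a = ψ b := h.ray a b ⟨α, β, hα, hβ, modQ_le D χ h1, modQ_le D χ h2, h3, h4, h5⟩
    have e2 : χ.chi a = χ.chi b := by
      have e3 := congrArg χ.chi h5
      rw [χ.mul, χ.mul, χ.ray α hα fun v hv => modQ_le' D χ hv h1,
        χ.ray β hβ fun v hv => modQ_le' D χ hv h2, one_mul, one_mul] at e3
      exact e3
    simp only [e1, e2]

/-! ### The condition on the primes -/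

theorem ray_abs {D : Ideal (𝓞 K)} {ψ : Ideal (𝓞 K) → ℂ} (h : RCharN D ψ)
    (w : AbsoluteValue ℂ ℝ) {u : Pr K} (hu : ¬ D ≤ u.asIdeal) : w (ψ u.asIdeal) = 1 := by
  obtain ⟨m, hm, h1⟩ := h.fin
  have h2 : D ⊔ u.asIdeal = ⊤ := by
    by_contra h3
    have h5 : u.asIdeal = D ⊔ u.asIdeal := u.isMaximal.eq_of_le h3 le_sup_right
    apply hu
    rw [h5]
    exact le_sup_left
  have h3 := congrArg w (h1 u.asIdeal u.ne_bot h2)
  rw [map_pow, map_one] at h3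
  exact (pow_eq_one_iff_of_nonneg (w.nonneg _) hm.ne').1 h3

theorem unit_neg (w : AbsoluteValue ℂ ℝ) (hna : ∀ x y : ℂ, w (x + y) ≤ max (w x) (w y))
    (h2 : w 2 < 1) {x y : ℂ} (hy : w y = 1) (h : w (1 - x + y ^ 2) = 1) :
    w (1 + x + y ^ 2) = 1 := by
  have hneg : ∀ z : ℂ, w (-z) = w z := fun z => w.map_neg z
  have h1 : w (1 + y ^ 2) ≤ 1 := by
    refine (hna _ _).trans (max_le ?_ ?_)
    · rw [map_one]
    · rw [map_pow, hy, one_pow]
  have hx : w x ≤ 1 := by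
    have e : x = (1 + y ^ 2) + -(1 - x + y ^ 2) := by ring
    rw [e]
    refine (hna _ _).trans (max_le h1 ?_)
    rw [hneg, h]
  have hx2 : w (2 * x) < 1 := by
    rw [map_mul]
    calc w 2 * w x ≤ w 2 * 1 := mul_le_mul_of_nonneg_left hx (w.nonneg 2)
      _ < 1 := by rw [mul_one]; exact h2
  apply le_antisymm
  · have e : 1 + x + y ^ 2 = (1 - x + y ^ 2) + 2 * x := by ring
    rw [e]
    exact (hna _ _).trans (max_le h.le hx2.le)
  · by_contra hlt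
    push Not at hlt
    have e : 1 - x + y ^ 2 = (1 + x + y ^ 2) + -(2 * x) := by ring
    have h3 : w (1 - x + y ^ 2) < 1 := by
      rw [e]
      refine lt_of_le_of_lt (hna _ _) (max_lt hlt ?_)
      rw [hneg]
      exact hx2
    rw [h] at h3
    exact lt_irrefl _ h3

theorem unit_mul (w : AbsoluteValue ℂ ℝ) (hna : ∀ x y : ℂ, w (x + y) ≤ max (w x) (w y))
    (h2 : w 2 < 1) {x y : ℂ} (hy : w y = 1) (h : w (1 - x * y + y ^ 2) = 1) {k : ℤ}
    (hk : k = 1 ∨ k = -1) : w (1 - x * (y * (k : ℂ)) + (y * (k : ℂ)) ^ 2) = 1 := by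
  rcases hk with rfl | rfl
  · simpa using h
  · have := unit_neg w hna h2 hy h
    have e : 1 - x * (y * ((-1 : ℤ) : ℂ)) + (y * ((-1 : ℤ) : ℂ)) ^ 2 = 1 + x * y + y ^ 2 := by
      push_cast
      ring
    rw [e]
    exact this

/-! ### Non-vanishing for products -/

theorem nonvan_mul {c ψ : Ideal (𝓞 K) → ℂ} {χ ρ : QChar K} (hd : Disjoint χ.T ρ.T) :
    NonVanC (fun a => c a * (ψ a * (χ.chi a : ℂ))) ρ ↔ NonVanC (fun a => c a * ψ a) (χ * ρ) := by
  have e : (fun a => c a * (ψ a * (χ.chi a : ℂ)) * (ρ.chi a : ℂ)) =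
      fun a => c a * ψ a * ((χ * ρ).chi a : ℂ) := by
    funext a
    rw [mul_chi_disj hd]
    push_cast
    ring
  unfold NonVanC
  rw [e]

open Classical in
/-- THE MAIN THEOREM -/
theorem main (v : AbsoluteValue ℂ ℝ) (hna : ∀ x y : ℂ, v (x + y) ≤ max (v x) (v y))
    (h2 : v 2 < 1) (ι : Type) [Fintype ι] [Nonempty ι] (n D : ι → Ideal (𝓞 K))
    (c ψ : ι → Ideal (𝓞 K) → ℂ)
    (hf : ∀ t, n t ≠ ⊥ ∧ D t ≠ ⊥ ∧ Form (n t) (c t) ∧ RCharN (D t) (ψ t))
    (P : Set (Pr K))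
    (hP : ∀ u ∈ P, Odd (nm u) ∧ ∀ t, ¬ n t ≤ u.asIdeal ∧ ¬ D t ≤ u.asIdeal ∧
        v (1 - c t u.asIdeal * ψ t u.asIdeal + ψ t u.asIdeal ^ 2) = 1)
    (W₀ : Finset (QChar K)) (hW₀ : W₀.Nonempty) (hW₀c : Closed (W₀ : Set (QChar K)))
    (hW₀P : ∀ χ ∈ W₀, (χ.T : Set (Pr K)) ⊆ P)
    (hW₀g : ∀ χ ∈ W₀, ∀ t, NonVanC (fun a => c t a * ψ t a) χ)
    (V : Set (QChar K)) (hV : V.Infinite) (hVc : Closed V)
    (hVP : ∀ χ ∈ V, (χ.T : Set (Pr K)) ⊆ P) :
    ∃ W : Set (QChar K), Closed W ∧ (W₀ : Set (QChar K)) ⊆ W ∧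
      (∀ χ ∈ W, (χ.T : Set (Pr K)) ⊆ P ∧ ∀ t, NonVanC (fun a => c t a * ψ t a) χ) ∧
      ∃ η : ℕ → QChar K, (∀ i, η i ∈ V ∧ η i ∈ W ∧ (η i).T.Nonempty) ∧
        Pairwise fun i k => Disjoint (η i).T (η k).T := by
  have hW₀c' := (closed_iff _).1 hW₀c
  have hVc' := (closed_iff V).1 hVc
  have h1W₀ : (1 : QChar K) ∈ W₀ := by
    obtain ⟨χ, hχ⟩ := hW₀
    rw [← mul_self' χ]
    exact_mod_cast hW₀c' χ (Finset.mem_coe.2 hχ) χ (Finset.mem_coe.2 hχ)
  have h1V : (1 : QChar K) ∈ V := by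
    obtain ⟨χ, hχ⟩ := hV.nonempty
    rw [← mul_self' χ]
    exact hVc' χ hχ χ hχ
  -- the primes of `W₀`
  set A : Finset (Pr K) := W₀.biUnion fun χ => χ.T with hA
  have hAmem : ∀ χ ∈ W₀, χ.T ⊆ A := fun χ hχ => Finset.subset_biUnion_of_mem (fun χ => χ.T) hχ
  -- the sequence
  obtain ⟨e, he, hed⟩ := exists_seq hV hVc' A
  -- the family
  have : Nonempty (ι × W₀) := ⟨(Classical.arbitrary ι, ⟨1, h1W₀⟩)⟩
  obtain ⟨j, hj⟩ := Anf.final K v hna h2 (ι × W₀) (fun p => n p.1)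
    (fun p => modQ (D p.1) p.2.1) (fun p => c p.1) (fun p a => ψ p.1 a * (p.2.1.chi a : ℂ))
    (fun p => ⟨(hf p.1).1, modQ_ne (hf p.1).2.1 _, (hf p.1).2.2.1,
      rchar_mul (hf p.1).2.2.2 _⟩) (by
      rintro ⟨t, χ, hχ⟩
      obtain ⟨l, hl, h⟩ := hW₀g χ hχ t
      refine ⟨l, hl, ?_⟩
      simpa only [mul_assoc] using h)
  have hfin := (hj {u | u ∈ P ∧ u ∉ A} (by
    rintro u ⟨huP, huA⟩
    refine ⟨(hP u huP).1, ?_⟩
    rintro ⟨t, χ, hχ⟩
    obtain ⟨a1, a2, a3⟩ := (hP u huP).2 t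
    have hu : u ∉ χ.T := fun h => huA (hAmem χ hχ h)
    refine ⟨a1, modQ_not_le a2 hu, ?_⟩
    have hval : χ.chi u.asIdeal = 1 ∨ χ.chi u.asIdeal = -1 := by
      refine χ.val _ u.ne_bot ?_
      intro w hw hle
      exact hu ((eq_of_le hle).symm ▸ hw)
    exact unit_mul v hna h2 (ray_abs (hf t).2.2.2 v a2) a3 hval)).1
  -- the group of the characters of `V` which are unramified at `A`
  let H : Subgroup (QChar K) :=
    { carrier := {χ | χ ∈ V ∧ Disjoint χ.T A}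
      mul_mem' := by
        rintro χ ρ ⟨h1, h1'⟩ ⟨h3, h3'⟩
        refine ⟨hVc' _ h1 _ h3, ?_⟩
        rw [Finset.disjoint_left] at h1' h3' ⊢
        intro u hu
        rcases mul_T _ _ hu with h | h
        · exact h1' h
        · exact h3' h
      one_mem' := ⟨h1V, by rw [one_T]; exact Finset.disjoint_empty_left _⟩
      inv_mem' := fun h => h }
  obtain ⟨b, hb⟩ := exists_good_seq (M := QChar K) mul_self' e
    (prod_ne_one e hed fun i => (he i).2.1) H (fun i => ⟨(he i).1, (he i).2.2⟩)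
    (fun χ => ∀ p : ι × W₀, NonVanC (fun a => c p.1 a * (ψ p.1 a * (p.2.1.chi a : ℂ))) χ) j
    (by
      intro V' hV'n hV'H hV'c
      have hcount := hfin V' hV'n (by
        intro χ hχ u hu
        exact ⟨hVP χ (hV'H χ hχ).1 hu, fun h =>
          Finset.disjoint_left.1 (hV'H χ hχ).2 (Finset.mem_coe.1 hu) h⟩) ((closed_iff _).2 (by
        intro χ hχ ρ hρ
        exact_mod_cast hV'c χ (Finset.mem_coe.1 hχ) ρ (Finset.mem_coe.1 hρ)))
      convert hcount)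
  -- the infinite group
  let W₁ : Set (QChar K) := Set.range fun s : Finset ℕ => ∏ i ∈ s, b i
  have hW₁c : ∀ χ ∈ W₁, ∀ ρ ∈ W₁, χ * ρ ∈ W₁ := by
    rintro _ ⟨s, rfl⟩ _ ⟨t, rfl⟩
    exact ⟨symmDiff s t, (prod_symmDiff' mul_self' b s t).symm⟩
  have hinj : Function.Injective fun s : Finset ℕ => ∏ i ∈ s, b i := by
    intro s t hst
    by_contra hne
    have h1 : (symmDiff s t).Nonempty := by
      rw [Finset.nonempty_iff_ne_empty]
      intro h
      exact hne (symmDiff_eq_bot.1 h)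
    apply (hb _ h1).1
    rw [← prod_symmDiff' mul_self' b s t]
    simp only at hst
    rw [hst, mul_self']
  have hW₁i : W₁.Infinite := Set.infinite_range_of_injective hinj
  have hW₁H : ∀ χ ∈ W₁, χ ∈ V ∧ Disjoint χ.T A := by
    rintro _ ⟨s, rfl⟩
    rcases s.eq_empty_or_nonempty with rfl | hs
    · exact H.one_mem
    · exact (hb s hs).2.1
  refine ⟨{χ | ∃ α ∈ W₀, ∃ β ∈ W₁, χ = α * β}, ?_, ?_, ?_, ?_⟩
  · rw [closed_iff]
    rintro _ ⟨α, hα, β, hβ, rfl⟩ _ ⟨α', hα', β', hβ', rfl⟩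
    refine ⟨α * α', ?_, β * β', hW₁c _ hβ _ hβ', mul_mul_mul_comm _ _ _ _⟩
    exact_mod_cast hW₀c' α (Finset.mem_coe.2 hα) α' (Finset.mem_coe.2 hα')
  · intro χ hχ
    exact ⟨χ, Finset.mem_coe.1 hχ, 1, ⟨∅, by simp⟩, (mul_one χ).symm⟩
  · rintro _ ⟨α, hα, β, hβ, rfl⟩
    refine ⟨?_, ?_⟩
    · intro u hu
      rcases mul_T _ _ (Finset.mem_coe.1 hu) with h | h
      · exact hW₀P α hα (Finset.mem_coe.2 h)
      · exact hVP β (hW₁H β hβ).1 (Finset.mem_coe.2 h)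
    · intro t
      have hd : Disjoint α.T β.T := ((hW₁H β hβ).2.mono_right (hAmem α hα)).symm
      obtain ⟨s, rfl⟩ := hβ
      rcases s.eq_empty_or_nonempty with rfl | hs
      · simpa using hW₀g α hα t
      · exact (nonvan_mul hd).1 ((hb s hs).2.2 ⟨t, ⟨α, hα⟩⟩)
  · obtain ⟨η, hη, hηd⟩ := exists_seq hW₁i hW₁c ∅
    refine ⟨η, fun i => ⟨(hW₁H _ (hη i).1).1, ⟨1, h1W₀, η i, (hη i).1, (one_mul _).symm⟩,
      (hη i).2.1⟩, hηd⟩

end Pool.Agent.Lib.MP_50bb2e_nt.Tow
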