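import Pool.Agent.Lib.MP_50bb2e_nt.Tow.Main

/-!
MP_50bb2e_nt, towers: a sequence of infinite groups of characters.
-/

namespace Pool.Agent.Lib.MP_50bb2e_nt.Tow

open NumberField IsDedekindDomain Filter Topology
open Pool.Agent.Lib.MP_50bb2e_nt.PP (Pr nm Cop QChar Fam Closed)
open Pool.Agent.Lib.MP_50bb2e_nt.Imq (CValI NonVanC)
open Pool.Agent.Lib.MP_50bb2e_nt.Anf (Form RCharN)

variable {K : Type} [Field K] [NumberField K]

/-- a finite group of good characters -/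
structure Ok (P : Set (Pr K)) (G : QChar K → Prop) (W : Finset (QChar K)) : Prop where
  ne : W.Nonempty
  cl : ∀ χ ∈ W, ∀ ψ ∈ W, χ * ψ ∈ W
  sub : ∀ χ ∈ W, (χ.T : Set (Pr K)) ⊆ P ∧ G χ

open Classical in
/-- from one step to a sequence -/
theorem seq_of_step (P : Set (Pr K)) (G : QChar K → Prop) (V : ℕ → Set (QChar K))
    (step : ∀ (W : Finset (QChar K)), Ok P G W → ∀ m, ∃ W' : Finset (QChar K), Ok P G W' ∧
      W ⊆ W' ∧ ∃ η ∈ V m, η ∈ W' ∧ η.T.Nonempty ∧ ∀ χ ∈ W, Disjoint η.T χ.T)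
    (W₀ : Finset (QChar K)) (hW₀ : Ok P G W₀) :
    ∃ W : Set (QChar K), (∀ χ ∈ W, ∀ ψ ∈ W, χ * ψ ∈ W) ∧ (W₀ : Set (QChar K)) ⊆ W ∧
      (∀ χ ∈ W, (χ.T : Set (Pr K)) ⊆ P ∧ G χ) ∧
      ∃ η : ℕ → QChar K, (∀ i, η i ∈ V i ∧ η i ∈ W ∧ (η i).T.Nonempty ∧
        ∀ χ ∈ W₀, Disjoint (η i).T χ.T) ∧
        Pairwise fun i k => Disjoint (η i).T (η k).T := by
  choose! f hf hsub η hηV hηf hηne hηd using step
  let s : ℕ → Finset (QChar K) := fun m => Nat.rec W₀ (fun m W => f W m) m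
  have hs : ∀ m, s (m + 1) = f (s m) m := fun m => rfl
  have hok : ∀ m, Ok P G (s m) := by
    intro m
    induction m with
    | zero => exact hW₀
    | succ m ih =>
      rw [hs]
      exact hf _ ih m
  have hmono : Monotone s := monotone_nat_of_le_succ fun m => by
    rw [hs]
    exact hsub _ (hok m) m
  refine ⟨⋃ m, {χ | χ ∈ s m}, ?_, ?_, ?_, fun m => η (s m) m, ?_, ?_⟩
  · intro χ hχ ψ hψ
    obtain ⟨i, hi⟩ := Set.mem_iUnion.1 hχ
    obtain ⟨k, hk⟩ := Set.mem_iUnion.1 hψ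
    refine Set.mem_iUnion.2 ⟨max i k, ?_⟩
    exact (hok _).cl χ (hmono (le_max_left i k) hi) ψ (hmono (le_max_right i k) hk)
  · intro χ hχ
    exact Set.mem_iUnion.2 ⟨0, Finset.mem_coe.1 hχ⟩
  · intro χ hχ
    obtain ⟨i, hi⟩ := Set.mem_iUnion.1 hχ
    exact (hok i).sub χ hi
  · intro i
    refine ⟨hηV _ (hok i) i, Set.mem_iUnion.2 ⟨i + 1, ?_⟩, hηne _ (hok i) i, ?_⟩
    · change η (s i) i ∈ s (i + 1)
      rw [hs]
      exact hηf _ (hok i) i
    · intro χ hχ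
      exact hηd _ (hok i) i χ (hmono (Nat.zero_le i) hχ)
  · have key : ∀ i k, i < k → Disjoint (η (s i) i).T (η (s k) k).T := by
      intro i k hik
      refine Disjoint.symm (hηd _ (hok k) k _ ?_)
      have h1 : η (s i) i ∈ s (i + 1) := by
        rw [hs]
        exact hηf _ (hok i) i
      exact hmono hik h1
    intro i k hik
    rcases lt_or_gt_of_ne hik with h | h
    · exact key i k h
    · exact (key k i h).symm

open Classical in
/-- THE MAIN THEOREM for a sequence of infinite groups -/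
theorem main_seq (v : AbsoluteValue ℂ ℝ) (hna : ∀ x y : ℂ, v (x + y) ≤ max (v x) (v y))
    (h2 : v 2 < 1) (ι : Type) [Fintype ι] [Nonempty ι] (n D : ι → Ideal (𝓞 K))
    (c ψ : ι → Ideal (𝓞 K) → ℂ)
    (hf : ∀ t, n t ≠ ⊥ ∧ D t ≠ ⊥ ∧ Form (n t) (c t) ∧ RCharN (D t) (ψ t))
    (P : Set (Pr K))
    (hP : ∀ u ∈ P, Odd (nm u) ∧ ∀ t, ¬ n t ≤ u.asIdeal ∧ ¬ D t ≤ u.asIdeal ∧
        v (1 - c t u.asIdeal * ψ t u.asIdeal + ψ t u.asIdeal ^ 2) = 1)
    (W₀ : Finset (QChar K)) (hW₀ : W₀.Nonempty) (hW₀c : Closed (W₀ : Set (QChar K)))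
    (hW₀g : ∀ χ ∈ W₀, (χ.T : Set (Pr K)) ⊆ P ∧ ∀ t, NonVanC (fun a => c t a * ψ t a) χ)
    (V : ℕ → Set (QChar K)) (hV : ∀ m, (V m).Infinite ∧ Closed (V m) ∧
      ∀ χ ∈ V m, (χ.T : Set (Pr K)) ⊆ P) :
    ∃ W : Set (QChar K), Closed W ∧ (W₀ : Set (QChar K)) ⊆ W ∧
      (∀ χ ∈ W, (χ.T : Set (Pr K)) ⊆ P ∧ ∀ t, NonVanC (fun a => c t a * ψ t a) χ) ∧
      ∃ η : ℕ → QChar K, (∀ m, η m ∈ V m ∧ η m ∈ W ∧ (η m).T.Nonempty ∧
        ∀ χ ∈ W₀, Disjoint (η m).T χ.T) ∧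
        Pairwise fun i k => Disjoint (η i).T (η k).T := by
  have hW₀' : Ok P (fun χ => ∀ t, NonVanC (fun a => c t a * ψ t a) χ) W₀ :=
    ⟨hW₀, fun χ hχ ψ hψ => Finset.mem_coe.1 ((closed_iff _).1 hW₀c χ (Finset.mem_coe.2 hχ) ψ
      (Finset.mem_coe.2 hψ)), hW₀g⟩
  obtain ⟨W, w1, w2, w3, w4⟩ := seq_of_step P
    (fun χ => ∀ t, NonVanC (fun a => c t a * ψ t a) χ) V (by
      intro W hW m
      obtain ⟨hVi, hVc, hVP⟩ := hV m
      obtain ⟨Z, z1, z2, z3, η, hη, hηd⟩ := main v hna h2 ι n D c ψ hf P hP W hW.ne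
        ((closed_iff _).2 fun χ hχ ρ hρ => Finset.mem_coe.2
          (hW.cl χ (Finset.mem_coe.1 hχ) ρ (Finset.mem_coe.1 hρ)))
        (fun χ hχ => (hW.sub χ hχ).1) (fun χ hχ => (hW.sub χ hχ).2) (V m) hVi hVc hVP
      rw [closed_iff] at z1
      -- a member which is unramified at the primes of `W`
      set A : Finset (Pr K) := W.biUnion fun χ => χ.T with hA
      obtain ⟨i, hi⟩ : ∃ i, Disjoint (η i).T A := by
        by_contra hcon
        push Not at hcon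
        have h1 : ∀ i, ∃ u ∈ (η i).T, u ∈ A := by
          intro i
          have := hcon i
          rw [Finset.disjoint_left] at this
          push Not at this
          exact this
        choose g hg hgA using h1
        have hinj : Function.Injective g := by
          intro i k hik
          by_contra hne
          exact Finset.disjoint_left.1 (hηd hne) (hg i) (hik ▸ hg k)
        exact (Set.infinite_range_of_injective hinj)
          (A.finite_toSet.subset (by rintro _ ⟨i, rfl⟩; exact Finset.mem_coe.2 (hgA i)))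
      have hdis : ∀ χ ∈ W, Disjoint (η i).T χ.T := fun χ hχ =>
        hi.mono_right (Finset.subset_biUnion_of_mem (fun χ => χ.T) hχ)
      have h1W : (1 : QChar K) ∈ W := by
        obtain ⟨χ, hχ⟩ := hW.ne
        rw [← mul_self' χ]
        exact hW.cl χ hχ χ hχ
      refine ⟨W ∪ W.image (fun χ => η i * χ), ⟨?_, ?_, ?_⟩, Finset.subset_union_left, η i,
        (hη i).1, ?_, (hη i).2.2, hdis⟩
      · obtain ⟨χ, hχ⟩ := hW.ne
        exact ⟨χ, Finset.mem_union_left _ hχ⟩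
      · intro χ hχ ρ hρ
        rcases Finset.mem_union.1 hχ with h | h <;> rcases Finset.mem_union.1 hρ with h' | h'
        · exact Finset.mem_union_left _ (hW.cl _ h _ h')
        · obtain ⟨ρ', h3, rfl⟩ := Finset.mem_image.1 h'
          refine Finset.mem_union_right _ (Finset.mem_image.2 ⟨χ * ρ', hW.cl _ h _ h3, ?_⟩)
          exact mul_left_comm _ _ _
        · obtain ⟨χ', h3, rfl⟩ := Finset.mem_image.1 h
          refine Finset.mem_union_right _ (Finset.mem_image.2 ⟨χ' * ρ, hW.cl _ h3 _ h', ?_⟩)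
          exact (mul_assoc _ _ _).symm
        · obtain ⟨χ', h3, rfl⟩ := Finset.mem_image.1 h
          obtain ⟨ρ', h4, rfl⟩ := Finset.mem_image.1 h'
          refine Finset.mem_union_left _ ?_
          rw [mul_mul_mul_comm, mul_self', one_mul]
          exact hW.cl _ h3 _ h4
      · intro χ hχ
        rcases Finset.mem_union.1 hχ with h | h
        · exact hW.sub χ h
        · obtain ⟨χ', h3, rfl⟩ := Finset.mem_image.1 h
          exact z3 _ (z1 _ (hη i).2.1 _ (z2 (Finset.mem_coe.2 h3)))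
      · exact Finset.mem_union_right _ (Finset.mem_image.2 ⟨1, h1W, mul_one _⟩)) W₀ hW₀'
  exact ⟨W, (closed_iff W).2 w1, w2, w3, w4⟩

end Pool.Agent.Lib.MP_50bb2e_nt.Tow
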