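import Pool.Agent.Lib.MP_50bb2e_nt.Tow.Fam
import Pool.Agent.Lib.MP_50bb2e_nt.ND.Good

/-!
MP_50bb2e_nt, towers: the forms twisted by the members of a finite family of characters.
-/

open IsDedekindDomain NumberField Filter Topology

namespace Pool.Agent.Lib.MP_50bb2e_nt.Tow

open Pool.Agent.Lib.MP_50bb2e_nt.PP
open Pool.Agent.Lib.MP_50bb2e_nt.ND (CVSet LgCV Good)

section

variable {F : Type} [Field F] [NumberField F]

variable {CV : (Ideal (𝓞 F) → ℂ) → ℂ → Prop}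
  {ι : Type} [Fintype ι] {c : ι → Ideal (𝓞 F) → ℂ} {w : AbsoluteValue ℂ ℝ} {B : ι → ℝ}
  {P : Set (Pr F)}

/-- the forms twisted by the members of a family -/
noncomputable def cU {κ : Type} (c : ι → Ideal (𝓞 F) → ℂ) (u : κ → QChar F) :
    κ × ι → Ideal (𝓞 F) → ℂ :=
  fun p a => c p.2 a * (((u p.1).chi a : ℤ) : ℂ)

theorem lin2 (hS : CVSet CV c w B P) {e1 e2 : Ideal (𝓞 F) → ℂ} {l1 l2 : ℂ} (h1 : CV e1 l1)
    (h2 : CV e2 l2) (k1 k2 : ℂ) : CV (fun I => k1 * e1 I + k2 * e2 I) (k1 * l1 + k2 * l2) := by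
  have := hS.lin Bool Finset.univ (fun b => if b then e1 else e2) (fun b => if b then l1 else l2)
    (fun b => if b then k1 else k2) (by rintro (_ | _) _ <;> simpa)
  simpa using this

open Classical in
/-- a ray union cut out by the value of a character -/
theorem ray_cut {T : Finset (Pr F)} {E : Set (Ideal (𝓞 F))} (hE : IsRayUnion T E) (ν : QChar F)
    (g : ℤ) : IsRayUnion (T ∪ ν.T) {a | a ∈ E ∧ Cop ν.T a ∧ g = ν.chi a} := by
  have h1 := ND.rayU ray' (X := Unit) (fun _ => ν) ν.T (fun _ => Finset.Subset.refl _)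
    (fun _ => g)
  refine ⟨?_, ?_⟩
  · rintro a ⟨ha, hc, hg⟩
    exact ⟨(hE.1 a ha).1, cop_union.2 ⟨(hE.1 a ha).2, hc⟩⟩
  · rintro a ⟨ha, hc, hg⟩ b α β hα hβ hαβ heq
    have h2 := hE.2 a ha b α β hα hβ (fun v hv => hαβ v (Finset.mem_union_left _ hv)) heq
    have h3 := h1.2 a ⟨(hE.1 a ha).1, hc, fun _ => hg⟩ b α β hα hβ
      (fun v hv => hαβ v (Finset.mem_union_right _ hv)) heq
    exact ⟨h2, h3.2.1, h3.2.2 ()⟩

open Classical in
/-- integrality of the twisted forms -/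
theorem tw_int (hS : CVSet CV c w B P) (i : ι) (ν : QChar F) (hν : (ν.T : Set (Pr F)) ⊆ P)
    (T : Finset (Pr F)) (hT : (T : Set (Pr F)) ⊆ P) (E : Set (Ideal (𝓞 F)))
    (hE : IsRayUnion T E) :
    ∃ l : ℂ, CV (fun a => if a ∈ E then c i a * ((ν.chi a : ℤ) : ℂ) else 0) l ∧ w l ≤ B i := by
  have hT' : ((T ∪ ν.T : Finset (Pr F)) : Set (Pr F)) ⊆ P := by
    intro v hv
    rw [Finset.coe_union] at hv
    rcases hv with hv | hv
    · exact hT hv
    · exact hν hv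
  obtain ⟨l1, h1, b1⟩ := hS.int i (T ∪ ν.T) hT' _ (ray_cut hE ν 1)
  obtain ⟨l2, h2, b2⟩ := hS.int i (T ∪ ν.T) hT' _ (ray_cut hE ν (-1))
  refine ⟨1 * l1 + (-1) * l2, ?_, ?_⟩
  · have h3 := lin2 hS h1 h2 1 (-1)
    convert h3 using 1
    funext a
    by_cases haE : a ∈ E
    · by_cases hc : Cop ν.T a
      · rcases ν.val a (hE.1 a haE).1 hc with h | h
        · have e1 : a ∈ {a | a ∈ E ∧ Cop ν.T a ∧ (1 : ℤ) = ν.chi a} := ⟨haE, hc, h.symm⟩
          have e2 : a ∉ {a | a ∈ E ∧ Cop ν.T a ∧ (-1 : ℤ) = ν.chi a} := by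
            rintro ⟨_, _, h'⟩
            rw [h] at h'
            norm_num at h'
          rw [if_pos haE, if_pos e1, if_neg e2, h]
          simp
        · have e1 : a ∉ {a | a ∈ E ∧ Cop ν.T a ∧ (1 : ℤ) = ν.chi a} := by
            rintro ⟨_, _, h'⟩
            rw [h] at h'
            norm_num at h'
          have e2 : a ∈ {a | a ∈ E ∧ Cop ν.T a ∧ (-1 : ℤ) = ν.chi a} := ⟨haE, hc, h.symm⟩
          rw [if_pos haE, if_neg e1, if_pos e2, h]
          simp
      · have e1 : a ∉ {a | a ∈ E ∧ Cop ν.T a ∧ (1 : ℤ) = ν.chi a} := fun h => hc h.2.1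
        have e2 : a ∉ {a | a ∈ E ∧ Cop ν.T a ∧ (-1 : ℤ) = ν.chi a} := fun h => hc h.2.1
        rw [if_pos haE, if_neg e1, if_neg e2, ν.zero a hc]
        simp
    · have e1 : a ∉ {a | a ∈ E ∧ Cop ν.T a ∧ (1 : ℤ) = ν.chi a} := fun h => haE h.1
      have e2 : a ∉ {a | a ∈ E ∧ Cop ν.T a ∧ (-1 : ℤ) = ν.chi a} := fun h => haE h.1
      rw [if_neg haE, if_neg e1, if_neg e2]
      simp
  · refine (hS.na _ _).trans (max_le ?_ ?_)
    · rw [one_mul]; exact b1
    · rw [neg_one_mul, map_neg_eq_map]; exact b2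

theorem isRay_cop (T : Finset (Pr F)) :
    IsRayUnion T {a : Ideal (𝓞 F) | a ≠ ⊥ ∧ Cop T a} := by
  have h1 := ND.rayU ray' (X := Empty) (fun x => x.elim) T (fun x => x.elim) (fun x => x.elim)
  have h2 : {a : Ideal (𝓞 F) | a ≠ ⊥ ∧ Cop T a} = {a : Ideal (𝓞 F) | a ≠ ⊥ ∧ Cop T a ∧
      ∀ x : Empty, (fun x : Empty => (x.elim : ℤ)) x =
        ((fun x : Empty => (x.elim : QChar F)) x).chi a} := by
    ext a
    simp
  rw [h2]
  exact h1

omit [Fintype ι] in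
open Classical in
/-- twisting a form by two characters, away from a finite set of primes -/
theorem tw_fun (i : ι) (ν χ : QChar F) (T : Finset (Pr F)) :
    (fun a : Ideal (𝓞 F) => if Cop T a then c i a * ((ν.chi a : ℤ) : ℂ) * ((χ.chi a : ℤ) : ℂ)
      else 0) =
    fun a => if Cop (T ∪ (ν.T ∪ χ.T)) a then c i a * (((ν * χ).chi a : ℤ) : ℂ) else 0 := by
  funext a
  by_cases ha : a = ⊥
  · subst ha
    rw [ν.bot, (ν * χ).bot]
    simp
  by_cases hT : Cop T a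
  · by_cases h1 : Cop ν.T a
    · by_cases h2 : Cop χ.T a
      · rw [if_pos hT, if_pos (cop_union.2 ⟨hT, cop_union.2 ⟨h1, h2⟩⟩),
          mul_chi _ _ (chi_ne ha h1) (chi_ne ha h2)]
        push_cast
        ring
      · rw [if_pos hT, if_neg (fun h => h2 (cop_union.1 (cop_union.1 h).2).2), χ.zero a h2]
        simp
    · rw [if_pos hT, if_neg (fun h => h1 (cop_union.1 (cop_union.1 h).2).1), ν.zero a h1]
      simp
  · rw [if_neg hT, if_neg (fun h => hT (cop_union.1 h).1)]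

open Classical in
/-- the value of the twist of a twisted form -/
theorem tw_val (hS : CVSet CV c w B P) (i : ι) (ν χ : QChar F) (hν : (ν.T : Set (Pr F)) ⊆ P)
    (hχ : (χ.T : Set (Pr F)) ⊆ P) : ∃ z z0 : ℂ,
    CV (fun a => c i a * ((ν.chi a : ℤ) : ℂ) * ((χ.chi a : ℤ) : ℂ)) z ∧
    CV (fun a => c i a * (((ν * χ).chi a : ℤ) : ℂ)) z0 ∧ w z = w z0 ∧
    ∀ T : Finset (Pr F), (T : Set (Pr F)) ⊆ P → ∀ d : ℂ,
      CV (fun a => if Cop T a then c i a * ((ν.chi a : ℤ) : ℂ) * ((χ.chi a : ℤ) : ℂ) else 0) d →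
      w d = w z := by
  have hνχ : ((ν * χ).T : Set (Pr F)) ⊆ P := by
    intro v hv
    rcases mul_T _ _ (Finset.mem_coe.1 hv) with h | h
    · exact hν h
    · exact hχ h
  have hsub : ∀ T : Finset (Pr F), (ν * χ).T ⊆ T ∪ (ν.T ∪ χ.T) := by
    intro T v hv
    apply Finset.mem_union_right
    rcases mul_T _ _ hv with h | h
    · exact Finset.mem_union_left _ h
    · exact Finset.mem_union_right _ h
  have hP : ∀ T : Finset (Pr F), (T : Set (Pr F)) ⊆ P →
      ((T ∪ (ν.T ∪ χ.T) : Finset (Pr F)) : Set (Pr F)) ⊆ P := by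
    intro T hT v hv
    simp only [Finset.coe_union, Set.mem_union] at hv
    rcases hv with hv | hv | hv
    · exact hT hv
    · exact hν hv
    · exact hχ hv
  obtain ⟨z0, hz0, -⟩ := hS.lm i (ν * χ) hνχ _ (Finset.Subset.refl _) hνχ
  have key : ∀ T : Finset (Pr F), (T : Set (Pr F)) ⊆ P → ∀ d : ℂ,
      CV (fun a => if Cop T a then c i a * ((ν.chi a : ℤ) : ℂ) * ((χ.chi a : ℤ) : ℂ) else 0) d →
      w d = w z0 := by
    intro T hT d hd
    obtain ⟨z1, hz1, hd1⟩ := hS.lm i (ν * χ) hνχ _ (hsub T) (hP T hT)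
    rw [tw_fun] at hd
    rw [hd1 d hd, hS.uniq _ _ _ hz1 hz0]
  -- existence
  have hνχi : ∃ z : ℂ, CV (fun a => c i a * ((ν.chi a : ℤ) : ℂ) * ((χ.chi a : ℤ) : ℂ)) z := by
    set T0 : Finset (Pr F) := ν.T ∪ χ.T with hT0
    have hT0P : (T0 : Set (Pr F)) ⊆ P := by
      intro v hv
      rw [hT0, Finset.coe_union] at hv
      rcases hv with hv | hv
      · exact hν hv
      · exact hχ hv
    obtain ⟨l, hl, -⟩ := tw_int hS i (ν * χ) hνχ T0 hT0P _ (isRay_cop T0)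
    refine ⟨l, ?_⟩
    convert hl using 1
    have h5 := tw_fun (c := c) i ν χ ∅
    have h6 : (fun a : Ideal (𝓞 F) => if Cop ∅ a then
        c i a * ((ν.chi a : ℤ) : ℂ) * ((χ.chi a : ℤ) : ℂ) else 0) =
        fun a => c i a * ((ν.chi a : ℤ) : ℂ) * ((χ.chi a : ℤ) : ℂ) := by
      funext a
      have hc : Cop (∅ : Finset (Pr F)) a := fun v hv => absurd hv (Finset.notMem_empty v)
      rw [if_pos hc]
    rw [← h6, h5]
    funext a
    rw [Finset.empty_union]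
    by_cases ha : a = ⊥
    · subst ha
      rw [(ν * χ).bot]
      simp
    · have h7 : a ∈ {a : Ideal (𝓞 F) | a ≠ ⊥ ∧ Cop T0 a} ↔ Cop (ν.T ∪ χ.T) a := by
        constructor
        · exact fun h => h.2
        · exact fun h => ⟨ha, h⟩
      by_cases h8 : Cop (ν.T ∪ χ.T) a
      · rw [if_pos h8, if_pos (h7.2 h8)]
      · rw [if_neg h8, if_neg (fun h => h8 (h7.1 h))]
  obtain ⟨z, hz⟩ := hνχi
  have hzz : w z = w z0 := by
    apply key ∅ (by simp)
    convert hz using 1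
    funext a
    have hc : Cop (∅ : Finset (Pr F)) a := fun v hv => absurd hv (Finset.notMem_empty v)
    rw [if_pos hc]
  refine ⟨z, z0, hz, hz0, hzz, ?_⟩
  intro T hT d hd
  rw [key T hT d hd, hzz]

/-- the hypotheses hold for the twisted forms -/
theorem cvset_tw (hS : CVSet CV c w B P) {κ : Type} [Fintype κ] (u : κ → QChar F)
    (hu : ∀ n, ((u n).T : Set (Pr F)) ⊆ P) : CVSet CV (cU c u) w (fun p => B p.2) P where
  na := hS.na
  two := hS.two
  uniq := hS.uniq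
  lin := hS.lin
  int := by
    rintro ⟨n, i⟩ T hT E hE
    exact tw_int hS i (u n) (hu n) T hT E hE
  lm := by
    rintro ⟨n, i⟩ χ hχ T hχT hT
    obtain ⟨z, z0, hz, hz0, hzz, h⟩ := tw_val hS i (u n) χ (hu n) hχ
    exact ⟨z, hz, h T hT⟩

/-- the base: values of the family -/
theorem base_tw {κ : Type} [Fintype κ] (u : κ → QChar F) (b : ℝ)
    (h : ∃ l : κ → ι → ℂ, (∀ n i, CV (fun a => c i a * (((u n).chi a : ℤ) : ℂ)) (l n i)) ∧
      b < ∏ n, ∏ i, w (l n i)) : LgCV CV (cU c u) w b (trivQ F) := by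
  obtain ⟨l, hl, hb⟩ := h
  refine ⟨fun p => l p.1 p.2, ?_, ?_⟩
  · rintro ⟨n, i⟩
    convert hl n i using 1
    funext a
    by_cases ha : a = ⊥
    · subst ha
      simp only [cU]
      rw [(u n).bot]
      simp
    · simp only [cU]
      rw [trivQ_chi ha]
      simp
  · rw [Fintype.prod_prod_type]
    exact hb

/-- the values of the twists -/
theorem lg_tw (hS : CVSet CV c w B P) {κ : Type} [Fintype κ] (u : κ → QChar F)
    (hu : ∀ n, ((u n).T : Set (Pr F)) ⊆ P) (b : ℝ) (χ : QChar F) (hχ : (χ.T : Set (Pr F)) ⊆ P)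
    (h : LgCV CV (cU c u) w b χ) :
    ∃ l : κ → ι → ℂ, (∀ n i, CV (fun a => c i a * (((u n * χ).chi a : ℤ) : ℂ)) (l n i)) ∧
      b < ∏ n, ∏ i, w (l n i) := by
  obtain ⟨l, hl, hb⟩ := h
  choose z z0 hz hz0 hzz _ using fun n i => tw_val hS i (u n) χ (hu n) hχ
  refine ⟨z0, hz0, ?_⟩
  rw [Fintype.prod_prod_type] at hb
  refine lt_of_lt_of_eq hb ?_
  apply Finset.prod_congr rfl
  intro n _
  apply Finset.prod_congr rfl
  intro i _
  rw [← hzz]
  congr 1
  exact hS.uniq _ _ _ (hl (n, i)) (hz n i)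

end

end Pool.Agent.Lib.MP_50bb2e_nt.Tow
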